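import Pool.Agent.TH806.Fin

set_option autoImplicit false

/-!
LK project (helper806, MP_112ba8_nt): sharp local lower bounds for the values of zeta on the critical line.

Goal (`P_MAIN`): for every `B` there are `c, C > 0` such that for large `T`, all `H ∈ [T/(log T)^α, T]` and all
`|V| ≤ B log log T` the set of `t ∈ [T, T+H]` with `e^(V-C) ≤ |ζ(1/2+it)| ≤ e^(V+C)` has measure at least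
`c H exp(-V²/log log T) / sqrt(log log T)`.

The primes are split into blocks `I i` (`i < J`), `zz I t i = Σ_{p ∈ I i} p^{-1/2-it}`. `NC K a z` is the truncated
`exp(az)`, `pf K θ z` the polynomial in `z`, `conj z` for `exp(i θ Re z)`, `AZ` the product of the `NC K a (z i)`,
`DK` the Fourier transform with a kernel `h`, which localises `x = Σ Re z_i` at `u`. Everything is computed with the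
three functionals `w0` (mean value), `w1` (twisted second moment of zeta), `wF` (twisted first moment of zeta), which
are represented by laws `ν` of pairs `(z, D)`.
-/

namespace Pool.Agent.TH806.LK

open Finset Filter Topology MeasureTheory Complex MonoidAlgebra
open Pool.Agent.W184.NZ
open Pool.Agent.TH806
open Pool.Agent.H306R2.SM (om cl Yf)
open Pool.Agent.H262R4.TM (Rng Ck)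

noncomputable section

/-! ### polynomials in `z` and `conj z` -/

/-- truncated exponential -/
def NC (K : ℕ) (a z : ℂ) : ℂ := ∑ k ∈ range (K + 1), a ^ k / (k.factorial : ℂ) * z ^ k

/-- the polynomial for `exp (i θ Re z)` -/
def pf (K : ℕ) (θ : ℝ) (z : ℂ) : ℂ := NC K (θ / 2 * I) z * NC K (θ / 2 * I) (starRingEnd ℂ z)

/-- the local factor -/
def BF (K : ℕ) (a b θ₁ θ₂ : ℝ) (z : ℂ) : ℂ :=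
  NC K a z * NC K b (starRingEnd ℂ z) * (pf K θ₁ z * pf K θ₂ z)

/-- the defect of the derivative: `d/dθ pf = i (Re z) pf - i TD` -/
def TD (K : ℕ) (θ : ℝ) (z : ℂ) : ℂ :=
  (z * ((θ / 2 * I) ^ K / (K.factorial : ℂ) * z ^ K) * NC K (θ / 2 * I) (starRingEnd ℂ z) +
    starRingEnd ℂ z * ((θ / 2 * I) ^ K / (K.factorial : ℂ) * (starRingEnd ℂ z) ^ K) * NC K (θ / 2 * I) z) / 2

/-- the local factor with two defects -/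
def BE (K : ℕ) (a θ₁ θ₂ : ℝ) (z : ℂ) : ℂ :=
  NC K a z * NC K a (starRingEnd ℂ z) * (TD K θ₁ z * TD K θ₂ z)

/-- the local factor with the large values -/
def BB (K R : ℕ) (a θ₁ θ₂ : ℝ) (z : ℂ) : ℂ := BF K a a θ₁ θ₂ z * (((‖z‖ / R) ^ (2 * R) : ℝ) : ℂ)

/-- a polynomial in `z`, `conj z` -/
def Fc (K : ℕ) (c : ℕ → ℕ → ℂ) (z : ℂ) : ℂ :=
  ∑ k ∈ range (K + 1), ∑ l ∈ range (K + 1), c k l * (z ^ k * (starRingEnd ℂ z) ^ l)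

/-- polynomials of degree `≤ K` in `z` and in `conj z` with bounded coefficients -/
def PB (K : ℕ) (f : ℂ → ℂ) : Prop := ∃ c : ℕ → ℕ → ℂ, (∀ k l, ‖c k l‖ ≤ 2 ^ K) ∧ ∀ z, f z = Fc K c z

/-- polynomials with exponential coefficients -/
def EB (K : ℕ) (S : ℝ) (f : ℂ → ℂ) : Prop := ∃ c : ℕ → ℕ → ℂ,
  (∀ k l, ‖c k l‖ ≤ S ^ k / (k.factorial : ℝ) * (S ^ l / (l.factorial : ℝ))) ∧ ∀ z, f z = Fc K c z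

/-- symmetric functions -/
def Sym (f : ℂ → ℂ) : Prop := ∀ z, f (starRingEnd ℂ z) = f z

/-- closure properties -/
def P_ALG : Prop :=
  (∀ (K : ℕ) (S : ℝ) (f : ℂ → ℂ), 0 ≤ S → 3 * S ≤ K → EB K S f → PB K f) ∧
  (∀ (K K' : ℕ) (S : ℝ) (f : ℂ → ℂ), K ≤ K' → 0 ≤ S → EB K S f → EB K' S f) ∧
  (∀ (K K' : ℕ) (f : ℂ → ℂ), K ≤ K' → PB K f → PB K' f) ∧
  ∀ (n K R : ℕ) (a b θ₁ θ₂ : ℝ), 1 ≤ n → n + 1 ≤ K → 1 ≤ R → |a| ≤ n → |b| ≤ n → |θ₁| ≤ 1 → |θ₂| ≤ 1 →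
    EB (3 * K) (n + 1) (BF K a b θ₁ θ₂) ∧ PB (3 * K + R) (BB K R a θ₁ θ₂) ∧ PB (3 * K + 2) (BE K a θ₁ θ₂) ∧
    Sym (BF K a a θ₁ θ₂) ∧ Sym (BB K R a θ₁ θ₂) ∧ Sym (BE K a θ₁ θ₂)

/-! ### laws -/

/-- the weight of the twisted first moment of zeta -/
def wF (x : ℕ × ℕ) : ℝ := if x.1 ∣ x.2 then 1 / (x.2 : ℝ) else 0

/-- the law of a block: the pair of the sum over the primes of `I` and the density -/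
structure LW (w : ℕ × ℕ → ℝ) (κ₁ κ₂ Q C : ℝ) (I : Finset ℕ) (ν : Measure (ℂ × ℂ)) : Prop where
  prob : IsProbabilityMeasure ν
  bdd : ∃ B : ℝ, ∀ᵐ q ∂ν, ‖q.1‖ ≤ B ∧ ‖q.2‖ ≤ B
  mom : ∀ k l : ℕ, ∫ q, q.2 * (q.1 ^ k * (starRingEnd ℂ q.1) ^ l) ∂ν = ((lam w (xI I ^ k * yI I ^ l) : ℝ) : ℂ)
  dsq : ∫ q, ‖q.2‖ ^ 2 ∂ν ≤ C * Real.exp (C * (vI I + uI I))
  expn : ∫ q, Real.exp (Q * ‖q.1‖) ∂ν ≤ C * Real.exp (C * (vI I + uI I))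
  exq : ∀ α β : ℂ, ‖α‖ ≤ Q → ‖β‖ ≤ Q → ∃ ε : ℂ, ‖ε‖ ≤ C * uI I ∧
    ∫ q, q.2 * Complex.exp (α * q.1 + β * starRingEnd ℂ q.1) ∂ν =
      Complex.exp ((κ₁ * α + κ₂ * β + α * β) * vI I + ε)

/-- multiplicativity of `wF` over disjoint sets of primes -/
def P_WF : Prop := ∀ I J : Finset ℕ, Disjoint I J → ∀ f g : DA, f ∈ SA (MI I) → g ∈ SA (MI J) →
  lam wF (f * g) = lam wF f * lam wF g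

/-- existence of the laws -/
def P_LAW : Prop := ∀ Q : ℝ, 1 ≤ Q → ∃ (P₀ : ℕ) (C : ℝ), 144 ≤ P₀ ∧ 1 ≤ C ∧ ∀ I : Finset ℕ,
  (∀ p ∈ I, p.Prime ∧ P₀ ≤ p) →
    (∃ ν, LW w0 0 0 Q C I ν) ∧ (∃ ν, LW w1 1 1 Q C I ν) ∧ (∃ ν, LW wF 0 1 Q C I ν)

/-- the exponent of a block -/
def ex (κ₁ κ₂ a b ϑ : ℝ) : ℂ :=
  κ₁ * (a + ϑ / 2 * I) + κ₂ * (b + ϑ / 2 * I) + (a + ϑ / 2 * I) * (b + ϑ / 2 * I)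

/-- local estimates -/
def P_LOC : Prop := ∀ (n : ℕ) (c C : ℝ), 1 ≤ n → 0 ≤ c → ∃ C' : ℝ, 0 < C' ∧
  ∀ (w : ℕ × ℕ → ℝ) (κ₁ κ₂ : ℝ) (I : Finset ℕ) (ν : Measure (ℂ × ℂ)), 0 ≤ κ₁ → κ₁ ≤ 1 → 0 ≤ κ₂ → κ₂ ≤ 1 →
    LW w κ₁ κ₂ (8 * n + 8) C I ν → vI I ≤ c → uI I ≤ c → ∀ R : ℕ, 1 ≤ R → ∀ a b θ₁ θ₂ : ℝ,
      |a| ≤ n → |b| ≤ n → |θ₁| ≤ 1 → |θ₂| ≤ 1 →
      ‖(∫ q, q.2 * BF (20 * n * R) a b θ₁ θ₂ q.1 ∂ν) - Complex.exp (ex κ₁ κ₂ a b (θ₁ + θ₂) * vI I)‖ ≤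
        C' * (uI I + Real.exp (-(R:ℝ))) ∧
      ‖∫ q, q.2 * BB (20 * n * R) R a θ₁ θ₂ q.1 ∂ν‖ ≤ C' * Real.exp (-(R:ℝ)) ∧
      ‖∫ q, q.2 * BE (20 * n * R) a θ₁ θ₂ q.1 ∂ν‖ ≤ C' * Real.exp (-(R:ℝ))

/-- the degrees -/
def KK (n Rs i : ℕ) : ℕ := 20 * n * RR Rs i

/-- the total variance -/
def VV (I : ℕ → Finset ℕ) (J : ℕ) : ℝ := ∑ i ∈ range J, vI (I i)

/-- products over the blocks -/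
def P_PRD : Prop := ∀ (n : ℕ) (c C : ℝ), 1 ≤ n → 0 ≤ c → ∃ C₃ : ℝ, 0 < C₃ ∧ ∃ e₀ : ℝ, 0 < e₀ ∧ ∃ R₀ : ℕ,
  ∀ (J Rs : ℕ) (I : ℕ → Finset ℕ) (b : ℕ → ℝ) (ν : ℕ → Measure (ℂ × ℂ)), Rg c J I b → 1 ≤ Rs →
    (∀ (w : ℕ × ℕ → ℝ) (κ : ℝ), 0 ≤ κ → κ ≤ 1 → (∀ i < J, LW w κ κ (8 * n + 8) C (I i) (ν i)) →
      ∀ a θ₁ θ₂ : ℝ, |a| ≤ n → |θ₁| ≤ 1 → |θ₂| ≤ 1 →
        ∏ i ∈ range J, ‖∫ q, q.2 * BF (KK n Rs i) a a θ₁ θ₂ q.1 ∂(ν i)‖ ≤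
          C₃ * Real.exp ((2 * κ * a + a ^ 2 - (θ₁ + θ₂) ^ 2 / 4) * VV I J) ∧
        ∀ i₀ < J,
          ∏ i ∈ (range J).erase i₀, ‖∫ q, q.2 * BF (KK n Rs i) a a θ₁ θ₂ q.1 ∂(ν i)‖ ≤
            C₃ * Real.exp ((2 * κ * a + a ^ 2 - (θ₁ + θ₂) ^ 2 / 4) * VV I J) ∧
          ‖∫ q, q.2 * BB (KK n Rs i₀) (RR Rs i₀) a θ₁ θ₂ q.1 ∂(ν i₀)‖ *
            ∏ i ∈ (range J).erase i₀, ‖∫ q, q.2 * BF (KK n Rs i) a a θ₁ θ₂ q.1 ∂(ν i)‖ ≤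
            Real.exp (-(RR Rs i₀ : ℝ)) *
              (C₃ * Real.exp ((2 * κ * a + a ^ 2 - (θ₁ + θ₂) ^ 2 / 4) * VV I J)) ∧
          ‖∫ q, q.2 * BE (KK n Rs i₀) a θ₁ θ₂ q.1 ∂(ν i₀)‖ *
            ∏ i ∈ (range J).erase i₀, ‖∫ q, q.2 * BF (KK n Rs i) a a θ₁ θ₂ q.1 ∂(ν i)‖ ≤
            Real.exp (-(RR Rs i₀ : ℝ)) *
              (C₃ * Real.exp ((2 * κ * a + a ^ 2 - (θ₁ + θ₂) ^ 2 / 4) * VV I J))) ∧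
    ((∀ i < J, LW wF 0 1 (8 * n + 8) C (I i) (ν i)) → R₀ ≤ Rs → ∑ i ∈ range J, uI (I i) ≤ e₀ →
      ∀ k θ₁ θ₂ : ℝ, |k| + 1 ≤ n → |θ₁| ≤ 1 → |θ₂| ≤ 1 → ∃ ε : ℂ, ‖ε‖ ≤ 1 / 4 ∧
        ∏ i ∈ range J, ∫ q, q.2 * BF (KK n Rs i) (k - 1) k θ₁ θ₂ q.1 ∂(ν i) =
          Complex.exp ((k + (θ₁ + θ₂) / 2 * Complex.I) ^ 2 * VV I J) * (1 + ε))

/-! ### mean values -/

/-- the sums over the blocks -/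
def zz (I : ℕ → Finset ℕ) (t : ℝ) (i : ℕ) : ℂ := PI (I i) (1 / 2 + t * Complex.I)

/-- mean values of products of block polynomials -/
def P_AV0 : Prop := ∀ᶠ T : ℝ in atTop, ∀ κ : ℕ, Rng T κ →
  ∀ (c Q C : ℝ) (J : ℕ) (I : ℕ → Finset ℕ) (b : ℕ → ℝ) (K : ℕ → ℕ) (f : ℕ → ℂ → ℂ) (ν : ℕ → Measure (ℂ × ℂ)),
    Rg c J I b → (∀ i < J, LW w0 0 0 Q C (I i) (ν i)) → (∀ i < J, 1 ≤ K i ∧ PB (K i) (f i) ∧ Sym (f i)) →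
    ∑ i ∈ range J, (K i : ℝ) * Real.log (b i) ≤ 1 / 100 * Real.log T →
    ‖(∫ t in Set.Ioi (0:ℝ), ((om κ (κ / T) t : ℝ) : ℂ) * ∏ i ∈ range J, f i (zz I t i)) -
      ∏ i ∈ range J, ∫ q, q.2 * f i q.1 ∂(ν i)‖ ≤ T ^ (-(1 / 2) : ℝ)

/-- the mean of zeta times a monomial `h^{-1/2-it} l^{-1/2+it}` -/
def P_ZM : Prop := ∀ᶠ T : ℝ in atTop, ∀ κ : ℕ, Rng T κ → ∀ h l : ℕ, 1 ≤ h → 1 ≤ l →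
  (h : ℝ) ≤ T ^ (1 / 4 : ℝ) → (l : ℝ) ≤ T ^ (1 / 4 : ℝ) →
    ‖(∫ t in Set.Ioi (0 : ℝ), ((om κ (κ / T) t : ℝ) : ℂ) * (riemannZeta (cl t) * mh t (h, l))) -
      ((wF (h, l) : ℝ) : ℂ)‖ ≤ T ^ (-1 : ℝ)

/-- mean values of zeta times products of block polynomials -/
def P_AV1 : Prop := ∀ᶠ T : ℝ in atTop, ∀ κ : ℕ, Rng T κ →
  ∀ (c Q C : ℝ) (J : ℕ) (I : ℕ → Finset ℕ) (b : ℕ → ℝ) (K : ℕ → ℕ) (f : ℕ → ℂ → ℂ) (ν : ℕ → Measure (ℂ × ℂ)),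
    Rg c J I b → (∀ i < J, LW wF 0 1 Q C (I i) (ν i)) → (∀ i < J, 1 ≤ K i ∧ PB (K i) (f i)) →
    ∑ i ∈ range J, (K i : ℝ) * Real.log (b i) ≤ 1 / 100 * Real.log T →
    ‖(∫ t in Set.Ioi (0:ℝ), ((om κ (κ / T) t : ℝ) : ℂ) *
        (riemannZeta (cl t) * ∏ i ∈ range J, f i (zz I t i))) -
      ∏ i ∈ range J, ∫ q, q.2 * f i q.1 ∂(ν i)‖ ≤ T ^ (-(1 / 2) : ℝ)

/-- mean values of the square of zeta times products of block polynomials -/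
def P_AV2 : Prop := ∃ η₀ : ℝ, 0 < η₀ ∧ η₀ ≤ 1 / 100 ∧ ∀ c Q C S : ℝ, 0 ≤ c → 0 ≤ S → 4 * S ≤ Q →
  ∃ C₂ : ℝ, 0 < C₂ ∧ ∀ᶠ T : ℝ in atTop, ∀ κ : ℕ, Rng T κ →
  ∀ (J : ℕ) (I : ℕ → Finset ℕ) (b : ℕ → ℝ) (K : ℕ → ℕ) (f : ℕ → ℂ → ℂ) (ν : ℕ → Measure (ℂ × ℂ)),
    Rg c J I b → (∀ i < J, LW w1 1 1 Q C (I i) (ν i)) →
    (∀ i < J, 1 ≤ K i ∧ 3 * S ≤ K i ∧ EB (K i) S (f i) ∧ Sym (f i)) →
    ∑ i ∈ range J, (K i : ℝ) * Real.log (b i) ≤ η₀ * Real.log T →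
    ‖∫ t in Set.Ioi (0:ℝ), ((wz κ T t : ℝ) : ℂ) * ∏ i ∈ range J, f i (zz I t i)‖ ≤
      C₂ * (Real.log T * ∏ i ∈ range J, ‖∫ q, q.2 * f i q.1 ∂(ν i)‖ +
        ∑ i ∈ range J, (K i : ℝ) * Real.log (b i) *
          ∏ j ∈ (range J).erase i, ‖∫ q, q.2 * f j q.1 ∂(ν j)‖) + T ^ (-η₀)

/-! ### Fourier integrals -/

/-- Fubini and the mean value theorem for Fourier integrals -/
def P_UPG : Prop := ∃ C₀ : ℝ, 0 < C₀ ∧ ∀ᶠ T : ℝ in atTop, ∀ κ : ℕ, Rng T κ →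
  ∀ (c Q C : ℝ) (J : ℕ) (I : ℕ → Finset ℕ) (b : ℕ → ℝ) (K : ℕ → ℕ) (G : ℕ → ℝ → ℝ → ℂ → ℂ)
    (ν : ℕ → Measure (ℂ × ℂ)) (h₁ h₂ : ℝ → ℝ) (u s M : ℝ),
    Rg c J I b → (∀ i < J, LW w0 0 0 Q C (I i) (ν i)) → (∀ i < J, 1 ≤ K i) →
    (∀ i < J, ∀ θ₁ ∈ Set.Icc (-1:ℝ) 1, ∀ θ₂ ∈ Set.Icc (-1:ℝ) 1,
      PB (K i) (G i θ₁ θ₂) ∧ Sym (G i θ₁ θ₂)) →
    (∀ i < J, Continuous fun x : ℝ × ℝ × ℂ => G i x.1 x.2.1 x.2.2) → Continuous h₁ → Continuous h₂ →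
    (∀ θ ∈ Set.Icc (-1:ℝ) 1, |h₁ θ| ≤ 1 ∧ |h₂ θ| ≤ 1) → 0 ≤ M →
    ∑ i ∈ range J, (K i : ℝ) * Real.log (b i) ≤ 1 / 100 * Real.log T →
    (∀ θ₁ ∈ Set.Icc (-1:ℝ) 1, ∀ θ₂ ∈ Set.Icc (-1:ℝ) 1, ∏ i ∈ range J, ‖∫ q, q.2 * G i θ₁ θ₂ q.1 ∂(ν i)‖ ≤
      M * Real.exp ((s - (θ₁ + θ₂) ^ 2 / 4) * VV I J)) →
    ‖∫ t in Set.Ioi (0:ℝ), ((om κ (κ / T) t : ℝ) : ℂ) * ∫ θ₁ in (-1:ℝ)..1, ∫ θ₂ in (-1:ℝ)..1,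
        ((h₁ θ₁ * h₂ θ₂ : ℝ) : ℂ) * (Complex.exp (-(((θ₁ + θ₂) * u : ℝ) : ℂ) * Complex.I) *
          ∏ i ∈ range J, G i θ₁ θ₂ (zz I t i))‖ ≤
      C₀ * M * ((1 + VV I J) ^ (-(1 / 2) : ℝ) * Real.exp (s * VV I J)) + 4 * T ^ (-(1 / 2) : ℝ)

/-- the configurations of blocks -/
structure Cfg (c e : ℝ) (P₀ : ℕ) (y : ℝ) (J : ℕ) (I : ℕ → Finset ℕ) : Prop where
  y1 : 144 ≤ y
  c0 : 0 ≤ c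
  rg : Rg c J I (bb y)
  U : ∑ i ∈ range J, uI (I i) ≤ e
  P : ∀ i, ∀ p ∈ I i, P₀ ≤ p
  vv : VV I J ≤ Real.log (Real.log y) + c

/-- existence of configurations -/
def P_SET : Prop := ∃ c : ℝ, 0 ≤ c ∧ ∀ e : ℝ, 0 < e → ∃ P₁ : ℕ, ∀ P₂ : ℕ, P₁ ≤ P₂ → ∃ CV : ℝ, 0 ≤ CV ∧
  ∀ y : ℝ, 144 ≤ y → ∃ (J : ℕ) (I : ℕ → Finset ℕ), Cfg c e P₂ y J I ∧ Real.log (Real.log y) - CV ≤ VV I J

/-- the product of the truncated exponentials -/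
def AZ (n Rs J : ℕ) (a : ℝ) (z : ℕ → ℂ) : ℂ := ∏ i ∈ range J, NC (KK n Rs i) a (z i)

/-- the Fourier integral with the kernel `h` -/
def DK (n Rs J : ℕ) (h : ℝ → ℝ) (u : ℝ) (z : ℕ → ℂ) : ℂ :=
  ∫ θ in (-1:ℝ)..1, (h θ : ℂ) * (Complex.exp (-((θ * u : ℝ) : ℂ) * I) * ∏ i ∈ range J, pf (KK n Rs i) θ (z i))

/-- the kernel -/
def hh (θ : ℝ) : ℝ := 1 - θ ^ 2

/-- the weight -/
def AD (n Rs J : ℕ) (I : ℕ → Finset ℕ) (a u t : ℝ) : ℝ :=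
  ‖AZ n Rs J a (zz I t)‖ ^ 2 * ‖DK n Rs J hh u (zz I t)‖ ^ 2

/-- the main order -/
def WW (s V : ℝ) : ℝ := (1 + V) ^ (-(1 / 2) : ℝ) * Real.exp (s * V)

/-- the real part of the sum over all primes -/
def xx (I : ℕ → Finset ℕ) (J : ℕ) (t : ℝ) : ℝ := ∑ i ∈ range J, (zz I t i).re

/-- continuity, size and pointwise bounds -/
def P_PT : Prop :=
  (∀ (n Rs J : ℕ) (I : ℕ → Finset ℕ) (a u : ℝ) (h : ℝ → ℝ), (∀ i, ∀ p ∈ I i, p.Prime) → Continuous h →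
    Continuous (fun t => AZ n Rs J a (zz I t)) ∧ Continuous (fun t => DK n Rs J h u (zz I t)) ∧
    (∀ i, Continuous fun t => zz I t i) ∧
    ∃ B : ℝ, ∀ t, ‖AZ n Rs J a (zz I t)‖ ≤ B ∧ ‖DK n Rs J h u (zz I t)‖ ≤ B ∧ ∀ i < J, ‖zz I t i‖ ≤ B) ∧
  (∀ (n Rs J : ℕ) (z : ℕ → ℂ), 1 ≤ n → 1 ≤ Rs → (∀ i < J, ‖z i‖ ≤ RR Rs i) →
    (∀ a : ℝ, |a| ≤ n → Real.exp (a * ∑ i ∈ range J, (z i).re) / 2 ≤ ‖AZ n Rs J a z‖ ∧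
      ‖AZ n Rs J a z‖ ≤ 2 * Real.exp (a * ∑ i ∈ range J, (z i).re)) ∧
    ∀ u : ℝ, ‖DK n Rs J hh u z‖ ≤ 4)

/-- first upper bound -/
def P_U1 : Prop := ∀ (n : ℕ) (c : ℝ), 1 ≤ n → 0 ≤ c → ∃ (P₀ : ℕ) (C η : ℝ), 0 < C ∧ 0 < η ∧
  ∀ Rs : ℕ, 1 ≤ Rs → ∀ᶠ T : ℝ in atTop, ∀ κ : ℕ, Rng T κ → ∀ (y : ℝ) (J : ℕ) (I : ℕ → Finset ℕ),
    Cfg c 1 P₀ y J I → n * ((Rs:ℝ) + 1) * Real.log y ≤ η * Real.log T → ∀ a u : ℝ, |a| ≤ n →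
      ∫ t in Set.Ioi (0:ℝ), om κ (κ / T) t * AD n Rs J I a u t ≤ C * WW (a ^ 2) (VV I J)

/-- second upper bound: localisation -/
def P_U2 : Prop := ∀ (n : ℕ) (c : ℝ), 1 ≤ n → 0 ≤ c → ∃ (P₀ : ℕ) (C η : ℝ), 0 < C ∧ 0 < η ∧
  ∀ Rs : ℕ, 1 ≤ Rs → ∀ᶠ T : ℝ in atTop, ∀ κ : ℕ, Rng T κ → ∀ (y : ℝ) (J : ℕ) (I : ℕ → Finset ℕ),
    Cfg c 1 P₀ y J I → n * ((Rs:ℝ) + 1) * Real.log y ≤ η * Real.log T → ∀ a u : ℝ, |a| ≤ n →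
      ∫ t in Set.Ioi (0:ℝ), om κ (κ / T) t * ((xx I J t - u) ^ 2 * AD n Rs J I a u t) ≤
        C * WW (a ^ 2) (VV I J)

/-- third upper bound: large values of one block -/
def P_U3 : Prop := ∀ (n : ℕ) (c : ℝ), 1 ≤ n → 0 ≤ c → ∃ (P₀ : ℕ) (C η : ℝ), 0 < C ∧ 0 < η ∧
  ∀ Rs : ℕ, 1 ≤ Rs → ∀ᶠ T : ℝ in atTop, ∀ κ : ℕ, Rng T κ → ∀ (y : ℝ) (J : ℕ) (I : ℕ → Finset ℕ),
    Cfg c 1 P₀ y J I → n * ((Rs:ℝ) + 1) * Real.log y ≤ η * Real.log T → ∀ a u : ℝ, |a| ≤ n → ∀ i < J,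
      ∫ t in Set.Ioi (0:ℝ), om κ (κ / T) t * ((‖zz I t i‖ / RR Rs i) ^ (2 * RR Rs i) * AD n Rs J I a u t) ≤
        C * Real.exp (-(RR Rs i : ℝ)) * WW (a ^ 2) (VV I J)

/-- fourth upper bound: the twisted second moment -/
def P_U4 : Prop := ∀ (n : ℕ) (c : ℝ), 1 ≤ n → 0 ≤ c → ∃ (P₀ : ℕ) (C η : ℝ), 0 < C ∧ 0 < η ∧
  ∀ Rs : ℕ, 1 ≤ Rs → ∀ᶠ T : ℝ in atTop, ∀ κ : ℕ, Rng T κ → ∀ (y : ℝ) (J : ℕ) (I : ℕ → Finset ℕ),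
    Cfg c 1 P₀ y J I → n * ((Rs:ℝ) + 1) * Real.log y ≤ η * Real.log T → ∀ a u : ℝ, |a| ≤ n →
      ∫ t in Set.Ioi (0:ℝ), wz κ T t * AD n Rs J I a u t ≤
        C * Real.log T * WW (2 * a + a ^ 2) (VV I J)

/-- the lower bound for the twisted first moment -/
def P_LB : Prop := ∀ (n : ℕ) (c : ℝ), 1 ≤ n → 0 ≤ c → ∃ (P₀ R₀ : ℕ) (c₁ e₀ η : ℝ), 0 < c₁ ∧ 0 < e₀ ∧ e₀ ≤ 1 ∧ 0 < η ∧
  ∀ Rs : ℕ, R₀ ≤ Rs → 1 ≤ Rs → ∀ᶠ T : ℝ in atTop, ∀ κ : ℕ, Rng T κ → ∀ (y : ℝ) (J : ℕ) (I : ℕ → Finset ℕ),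
    Cfg c e₀ P₀ y J I → n * ((Rs:ℝ) + 1) * Real.log y ≤ η * Real.log T → ∀ k : ℝ, |k| + 1 ≤ n →
      c₁ * WW (k ^ 2) (VV I J) ≤
        (∫ t in Set.Ioi (0:ℝ), ((om κ (κ / T) t : ℝ) : ℂ) * (riemannZeta (cl t) *
          (starRingEnd ℂ (AZ n Rs J k (zz I t)) * AZ n Rs J (k - 1) (zz I t) *
            ((‖DK n Rs J hh (k * VV I J) (zz I t)‖ ^ 2 : ℝ) : ℂ)))).re

/-! ### windows and intervals -/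

/-- the local lower bound in the windows -/
def P_WIN : Prop := ∀ B : ℝ, 0 ≤ B → ∃ c C : ℝ, 0 < c ∧ 0 < C ∧ ∀ᶠ T : ℝ in atTop, ∀ κ : ℕ, Rng T κ →
  ∀ k : ℝ, |k| ≤ B →
    c * (Real.exp (-(k ^ 2 * Real.log (Real.log T))) / Real.sqrt (Real.log (Real.log T))) ≤
      ∫ t in Set.Ioi (0:ℝ) ∩ {t | Real.exp (k * Real.log (Real.log T) - C) ≤ Xz t ∧
        Xz t ≤ Real.exp (k * Real.log (Real.log T) + C)}, om κ (κ / T) t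

/-- from the windows to short intervals, for bounded continuous functions -/
def P_SH : Prop := ∀ α A : ℝ, 0 ≤ α → α < 1 → 0 ≤ A → ∃ κ : ℝ → ℕ, ∀ᶠ T : ℝ in atTop,
  (∀ x ∈ Set.Icc T (2 * T), Rng x (κ T)) ∧
  ∀ H : ℝ, T / Real.log T ^ α ≤ H → H ≤ T → ∀ f : ℝ → ℝ, Continuous f → (∀ t, 0 ≤ f t ∧ f t ≤ 1) →
  ∀ w : ℝ, 1 / Real.log T ^ A ≤ w → (∀ x ∈ Set.Icc T (T + H),
    w ≤ ∫ t in Set.Ioi (0:ℝ), om (κ T) ((κ T : ℝ) / x) t * f t) →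
    1 / 2 * (H * w) ≤ ∫ t in T..(T + H), f t

/-- the final theorem -/
def P_MAIN : Prop := ∀ B : ℝ, 0 ≤ B → ∃ c C : ℝ, 0 < c ∧ 0 < C ∧ ∀ α : ℝ, 0 ≤ α → α < 1 →
  ∀ᶠ T : ℝ in atTop, ∀ H : ℝ, T / Real.log T ^ α ≤ H → H ≤ T →
  ∀ V : ℝ, |V| ≤ B * Real.log (Real.log T) →
    c * H * (Real.exp (-(V ^ 2 / Real.log (Real.log T))) / Real.sqrt (Real.log (Real.log T))) ≤
      volume.real {t ∈ Set.Icc T (T + H) | Real.exp (V - C) ≤ ‖riemannZeta (1 / 2 + t * Complex.I)‖ ∧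
        ‖riemannZeta (1 / 2 + t * Complex.I)‖ ≤ Real.exp (V + C)}

end

end Pool.Agent.TH806.LK
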