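import Pool.Agent.TH806.LK.Defs

set_option autoImplicit false

/-!
LK project: from the measure of the level sets to the local densities of all moments.
-/

namespace Pool.Agent.TH806.LK

open Finset Filter Topology MeasureTheory Complex
open Pool.Agent.TH806
open Pool.Agent.H306R2.SM (om cl Yf)

noncomputable section

/-- the level sets -/
def Lv (T H V C : ℝ) : Set ℝ :=
  {t ∈ Set.Icc T (T + H) | Real.exp (V - C) ≤ ‖riemannZeta (1 / 2 + t * Complex.I)‖ ∧
        ‖riemannZeta (1 / 2 + t * Complex.I)‖ ≤ Real.exp (V + C)}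

lemma Lv_meas (T H V C : ℝ) : MeasurableSet (Lv T H V C) :=
  measurableSet_Icc.inter ((measurableSet_le measurable_const Xz_cont.measurable).inter
    (measurableSet_le Xz_cont.measurable measurable_const))

lemma rpow_low {V C x b : ℝ} (_hC : 0 ≤ C) (h1 : Real.exp (V - C) ≤ x) (h2 : x ≤ Real.exp (V + C)) :
    Real.exp (b * V - |b| * C) ≤ x ^ b := by
  have hx : 0 < x := lt_of_lt_of_le (Real.exp_pos _) h1
  rw [Real.rpow_def_of_pos hx]
  apply Real.exp_le_exp.mpr
  have l1 : V - C ≤ Real.log x := by rwa [Real.le_log_iff_exp_le hx]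
  have l2 : Real.log x ≤ V + C := by rwa [Real.log_le_iff_le_exp hx]
  rcases le_total 0 b with hb | hb
  · rw [abs_of_nonneg hb]; nlinarith
  · rw [abs_of_nonpos hb]; nlinarith

theorem dens (h : P_MAIN) : ∀ B : ℝ, 0 ≤ B → ∃ c C : ℝ, 0 < c ∧ 0 < C ∧ ∀ α : ℝ, 0 ≤ α → α < 1 →
    ∀ᶠ T : ℝ in atTop, ∀ H : ℝ, T / Real.log T ^ α ≤ H → H ≤ T →
    ∀ V b : ℝ, |V| ≤ B * Real.log (Real.log T) → |b| ≤ B →
      c * H * (Real.exp (b * V - V ^ 2 / Real.log (Real.log T)) / Real.sqrt (Real.log (Real.log T))) ≤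
        ∫ t in Lv T H V C, ‖riemannZeta (1 / 2 + t * Complex.I)‖ ^ b := by
  intro B hB
  obtain ⟨c, C, hc, hC, h⟩ := h B hB
  refine ⟨c * Real.exp (-(B * C)), C, by positivity, hC, fun α h0 h1 => ?_⟩
  filter_upwards [h α h0 h1, eventually_gt_atTop (0:ℝ)] with T hT hT0 H hH1 hH2 V b hV hb
  have h2 := hT H hH1 hH2 V hV
  have hfin : volume (Lv T H V C) < ⊤ :=
    lt_of_le_of_lt (measure_mono (fun t ht => ht.1)) (measure_Icc_lt_top (a := T) (b := T + H))
  have h3 : Real.exp (b * V - B * C) * volume.real (Lv T H V C) ≤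
      ∫ t in Lv T H V C, ‖riemannZeta (1 / 2 + t * Complex.I)‖ ^ b := by
    have e1 : Real.exp (b * V - B * C) * volume.real (Lv T H V C) =
        ∫ _t in Lv T H V C, Real.exp (b * V - B * C) := by
      rw [setIntegral_const, smul_eq_mul, mul_comm]
    rw [e1]
    refine setIntegral_mono_on (integrableOn_const hfin.ne (by simp)) ?_ (Lv_meas _ _ _ _) fun t ht => ?_
    · have hb0 : ∀ t ∈ Lv T H V C, ‖‖riemannZeta (1 / 2 + t * Complex.I)‖ ^ b‖ ≤
          Real.exp (V * b + |b| * C) := by
        intro t ht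
        rw [Real.norm_of_nonneg (by positivity)]
        have hx : 0 < ‖riemannZeta (1 / 2 + t * Complex.I)‖ := lt_of_lt_of_le (Real.exp_pos _) ht.2.1
        rw [Real.rpow_def_of_pos hx]
        apply Real.exp_le_exp.mpr
        have l1 : V - C ≤ Real.log ‖riemannZeta (1 / 2 + t * Complex.I)‖ := by
          rw [Real.le_log_iff_exp_le hx]; exact ht.2.1
        have l2 : Real.log ‖riemannZeta (1 / 2 + t * Complex.I)‖ ≤ V + C := by
          rw [Real.log_le_iff_le_exp hx]; exact ht.2.2
        rcases le_total 0 b with hb' | hb'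
        · rw [abs_of_nonneg hb']; nlinarith
        · rw [abs_of_nonpos hb']; nlinarith
      have hm : Measurable fun t : ℝ => ‖riemannZeta (1 / 2 + t * Complex.I)‖ ^ b :=
        (Xz_cont.measurable : Measurable Xz).pow_const b
      exact Measure.integrableOn_of_bounded hfin.ne hm.aestronglyMeasurable
        ((ae_restrict_iff' (Lv_meas _ _ _ _)).mpr (Eventually.of_forall hb0))
    · refine le_trans (Real.exp_le_exp.mpr ?_) (rpow_low hC.le ht.2.1 ht.2.2)
      have := mul_le_mul_of_nonneg_right hb hC.le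
      linarith
  refine le_trans ?_ h3
  have h4 := mul_le_mul_of_nonneg_left h2 (Real.exp_pos (b * V - B * C)).le
  refine le_trans (le_of_eq ?_) h4
  have e2 : Real.exp (b * V - V ^ 2 / Real.log (Real.log T)) = Real.exp (b * V) *
      Real.exp (-(V ^ 2 / Real.log (Real.log T))) := by rw [← Real.exp_add]; congr 1
  have e3 : Real.exp (b * V - B * C) = Real.exp (b * V) * Real.exp (-(B * C)) := by
    rw [← Real.exp_add]; congr 1
  rw [e2, e3]; ring

end

end Pool.Agent.TH806.LK
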