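import Pool.Agent.TH806.LK.Defs

set_option autoImplicit false

/-!
LK project: the local lower bound in the windows.
-/

namespace Pool.Agent.TH806.LK

open Finset Filter Topology MeasureTheory Complex MonoidAlgebra
open Pool.Agent.W184.NZ
open Pool.Agent.TH806
open Pool.Agent.H306R2.SM (om cl Yf)
open Pool.Agent.H262R4.TM (Rng Ck)

noncomputable section

lemma amgm {X A A' lam : ℝ} (hlam : 0 < lam) :
    X * (A * A') ≤ lam / 2 * (X ^ 2 * A' ^ 2) + 1 / (2 * lam) * A ^ 2 := by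
  have h1 : 0 ≤ (lam * (X * A') - A) ^ 2 := sq_nonneg _
  have h2 : lam / 2 * (X ^ 2 * A' ^ 2) + 1 / (2 * lam) * A ^ 2 - X * (A * A') =
      (lam * (X * A') - A) ^ 2 / (2 * lam) := by field_simp; ring
  have h3 : 0 ≤ (lam * (X * A') - A) ^ 2 / (2 * lam) := by positivity
  linarith

open Classical in
lemma pw {X A A' D : ℝ} (hX : 0 ≤ X) (hA : 0 ≤ A) (hA' : 0 ≤ A') (hD : 0 ≤ D) {x u k lam B' c' M' G bad : ℝ}
    (hlam : 0 < lam) (hB' : 0 < B') (hc' : 0 < c') (hM' : 0 < M') (hG : 0 ≤ G) (hbad : 0 ≤ bad) {good : Prop}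
    (h1 : ¬ good → 1 ≤ bad)
    (h2 : good → Real.exp (k * x) / 2 ≤ A ∧ A ≤ 2 * Real.exp (k * x) ∧ Real.exp ((k - 1) * x) / 2 ≤ A' ∧
      A' ≤ 2 * Real.exp ((k - 1) * x))
    (hS : good → |x - u| ≤ B' → c' * Real.exp x ≤ X → X ≤ M' * Real.exp x → X * (A * A') * D ≤ G) :
    X * (A * A') * D ≤ (if good ∧ |x - u| ≤ B' ∧ c' * Real.exp x ≤ X ∧ X ≤ M' * Real.exp x then G else 0) +
      (lam + 4 / M') * (X ^ 2 * (A' ^ 2 * D)) + 1 / (2 * lam) * (bad * (A ^ 2 * D)) +
      1 / (2 * lam * B' ^ 2) * ((x - u) ^ 2 * (A ^ 2 * D)) + 16 * c' * (A ^ 2 * D) := by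
  have t1 : 0 ≤ X ^ 2 * (A' ^ 2 * D) := by positivity
  have t2 : 0 ≤ 1 / (2 * lam) * (bad * (A ^ 2 * D)) := by positivity
  have t3 : 0 ≤ 1 / (2 * lam * B' ^ 2) * ((x - u) ^ 2 * (A ^ 2 * D)) := by positivity
  have t4 : 0 ≤ c' * (A ^ 2 * D) := by positivity
  have t5 : 0 ≤ 4 / M' * (X ^ 2 * (A' ^ 2 * D)) := by positivity
  have t6 : 0 ≤ lam * (X ^ 2 * (A' ^ 2 * D)) := by positivity
  have t0 : 0 ≤ (if good ∧ |x - u| ≤ B' ∧ c' * Real.exp x ≤ X ∧ X ≤ M' * Real.exp x then G else 0) := by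
    split_ifs
    · exact hG
    · exact le_rfl
  have hAM := mul_le_mul_of_nonneg_right (amgm (X := X) (A := A) (A' := A') hlam) hD
  have e1 : (lam / 2 * (X ^ 2 * A' ^ 2) + 1 / (2 * lam) * A ^ 2) * D =
      1 / 2 * (lam * (X ^ 2 * (A' ^ 2 * D))) + 1 / (2 * lam) * (A ^ 2 * D) := by ring
  rw [e1] at hAM
  have t7 : 0 ≤ A ^ 2 * D := by positivity
  by_cases hg : good
  · obtain ⟨a1, a2, a3, a4⟩ := h2 hg
    by_cases hx : |x - u| ≤ B'
    · by_cases hlo : c' * Real.exp x ≤ X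
      · by_cases hhi : X ≤ M' * Real.exp x
        · rw [if_pos ⟨hg, hx, hlo, hhi⟩]
          have := hS hg hx hlo hhi
          linarith
        · -- high
          push Not at hhi
          have e2 : Real.exp (k * x) = Real.exp ((k - 1) * x) * Real.exp x := by
            rw [← Real.exp_add]; congr 1; ring
          have p1 := Real.exp_pos x
          have p2 := Real.exp_pos ((k - 1) * x)
          have h5 : X * (A * A') ≤ 4 / M' * (X ^ 2 * A' ^ 2) := by
            have h6 : Real.exp x ≤ X / M' := by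
              rw [le_div_iff₀ hM']; linarith
            calc X * (A * A') ≤ X * ((2 * (Real.exp ((k - 1) * x) * Real.exp x)) * A') := by
                  rw [← e2]; gcongr
              _ ≤ X * ((2 * ((2 * A') * (X / M'))) * A') := by
                  gcongr
                  linarith
              _ = _ := by ring
          have h7 := mul_le_mul_of_nonneg_right h5 hD
          have e3 : 4 / M' * (X ^ 2 * A' ^ 2) * D = 4 / M' * (X ^ 2 * (A' ^ 2 * D)) := by ring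
          linarith
      · push Not at hlo
        have e2 : Real.exp ((k - 1) * x) * Real.exp x = Real.exp (k * x) := by
          rw [← Real.exp_add]; congr 1; ring
        have p1 := Real.exp_pos x
        have p2 := Real.exp_pos ((k - 1) * x)
        have h5 : X * (A * A') ≤ 16 * c' * A ^ 2 := by
          calc X * (A * A') ≤ (c' * Real.exp x) * (A * (2 * Real.exp ((k - 1) * x))) := by gcongr
            _ = 2 * c' * A * (Real.exp ((k - 1) * x) * Real.exp x) := by ring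
            _ = 2 * c' * A * Real.exp (k * x) := by rw [e2]
            _ ≤ 2 * c' * A * (2 * A) := by gcongr; linarith
            _ ≤ 16 * c' * A ^ 2 := by nlinarith [mul_nonneg hc'.le (sq_nonneg A)]
        have h7 := mul_le_mul_of_nonneg_right h5 hD
        have e3 : 16 * c' * A ^ 2 * D = 16 * c' * (A ^ 2 * D) := by ring
        linarith
    · push Not at hx
      have h5 : 1 / (2 * lam) * (A ^ 2 * D) ≤ 1 / (2 * lam * B' ^ 2) * ((x - u) ^ 2 * (A ^ 2 * D)) := by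
        have h6 : B' ^ 2 ≤ (x - u) ^ 2 := by
          rw [← sq_abs (x - u)]
          exact pow_le_pow_left₀ hB'.le hx.le 2
        calc 1 / (2 * lam) * (A ^ 2 * D) = 1 / (2 * lam * B' ^ 2) * (B' ^ 2 * (A ^ 2 * D)) := by field_simp
          _ ≤ _ := by gcongr
      linarith
  · have h5 := h1 hg
    have h6 : 1 / (2 * lam) * (A ^ 2 * D) ≤ 1 / (2 * lam) * (bad * (A ^ 2 * D)) := by
      refine mul_le_mul_of_nonneg_left ?_ (by positivity)
      nlinarith
    linarith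

lemma Cfg.mono {c e e' : ℝ} {P P' : ℕ} {y : ℝ} {J : ℕ} {I : ℕ → Finset ℕ} (h : Cfg c e P y J I) (he : e ≤ e')
    (hP : P' ≤ P) : Cfg c e' P' y J I :=
  ⟨h.y1, h.c0, h.rg, h.U.trans he, fun i p hp => hP.trans (h.P i p hp), h.vv⟩

lemma Rs_ex (K : ℝ) (R5 : ℕ) : ∃ Rs : ℕ, R5 ≤ Rs ∧ 1 ≤ Rs ∧ K * ((Rs:ℝ) + 1) * Real.exp (-(Rs:ℝ)) ≤ 1 := by
  refine ⟨max R5 (max 1 ⌈2 * K⌉₊), le_max_left _ _, (le_max_left _ _).trans (le_max_right _ _), ?_⟩
  set Rs := max R5 (max 1 ⌈2 * K⌉₊)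
  have h1 : 2 * K ≤ Rs := (Nat.le_ceil _).trans (by
    exact_mod_cast (le_max_right 1 ⌈2 * K⌉₊).trans (le_max_right R5 _))
  have h0 : (0:ℝ) ≤ Rs := Nat.cast_nonneg _
  have h2 := Real.quadratic_le_exp_of_nonneg h0
  rw [Real.exp_neg, ← div_eq_mul_inv, div_le_one (Real.exp_pos _)]
  nlinarith

/-- the good set -/
def gd (Rs J : ℕ) (I : ℕ → Finset ℕ) (t : ℝ) : Prop := ∀ i < J, ‖zz I t i‖ ≤ RR Rs i

/-- the large values -/
def bd (Rs J : ℕ) (I : ℕ → Finset ℕ) (t : ℝ) : ℝ := ∑ i ∈ range J, (‖zz I t i‖ / RR Rs i) ^ (2 * RR Rs i)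

lemma bd_nonneg (Rs J : ℕ) (I : ℕ → Finset ℕ) (t : ℝ) : 0 ≤ bd Rs J I t :=
  sum_nonneg fun _ _ => by positivity

lemma bd_one {Rs J : ℕ} {I : ℕ → Finset ℕ} {t : ℝ} (hRs : 1 ≤ Rs) (h : ¬ gd Rs J I t) : 1 ≤ bd Rs J I t := by
  unfold gd at h
  push Not at h
  obtain ⟨i, hi, h⟩ := h
  have hR : (0:ℝ) < RR Rs i := by
    have : 0 < RR Rs i := by unfold RR; omega
    exact_mod_cast this
  have h1 : (1:ℝ) ≤ (‖zz I t i‖ / RR Rs i) ^ (2 * RR Rs i) := by
    refine one_le_pow₀ ?_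
    rw [le_div_iff₀ hR]; linarith
  exact h1.trans (single_le_sum (f := fun i => (‖zz I t i‖ / RR Rs i) ^ (2 * RR Rs i))
    (fun _ _ => by positivity) (mem_range.mpr hi))


/-- the set where everything is under control -/
def SS (Rs J : ℕ) (I : ℕ → Finset ℕ) (u B' c' M' : ℝ) : Set ℝ :=
  {t | gd Rs J I t ∧ |xx I J t - u| ≤ B' ∧ c' * Real.exp (xx I J t) ≤ Xz t ∧ Xz t ≤ M' * Real.exp (xx I J t)}

lemma xx_cont {J : ℕ} {I : ℕ → Finset ℕ} (hz : ∀ i, Continuous fun t => zz I t i) : Continuous fun t => xx I J t := by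
  unfold xx
  exact continuous_finsetSum _ fun i _ => Complex.continuous_re.comp (hz i)

lemma SS_meas {Rs J : ℕ} {I : ℕ → Finset ℕ} (hz : ∀ i, Continuous fun t => zz I t i) (u B' c' M' : ℝ) :
    MeasurableSet (SS Rs J I u B' c' M') := by
  have hx := xx_cont (J := J) hz
  have h1 : MeasurableSet {t | gd Rs J I t} := by
    have : {t | gd Rs J I t} = ⋂ i, ⋂ (_ : i < J), {t | ‖zz I t i‖ ≤ RR Rs i} := by
      ext t; simp [gd]
    rw [this]
    exact MeasurableSet.iInter fun i => MeasurableSet.iInter fun _ =>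
      measurableSet_le (hz i).norm.measurable measurable_const
  have h2 : MeasurableSet {t | |xx I J t - u| ≤ B'} :=
    measurableSet_le (by have := hx.measurable; fun_prop) measurable_const
  have h3 : MeasurableSet {t | c' * Real.exp (xx I J t) ≤ Xz t} :=
    measurableSet_le (by have := hx.measurable; fun_prop) Xz_cont.measurable
  have h4 : MeasurableSet {t | Xz t ≤ M' * Real.exp (xx I J t)} :=
    measurableSet_le Xz_cont.measurable (by have := hx.measurable; fun_prop)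
  exact h1.inter (h2.inter (h3.inter h4))

theorem int_key (hPT : P_PT) {n Rs J : ℕ} {I : ℕ → Finset ℕ} (hI : ∀ i, ∀ p ∈ I i, p.Prime) (hn : 1 ≤ n)
    (hRs : 1 ≤ Rs) {κ : ℕ} {T : ℝ} (hδ : 0 < (κ:ℝ) / T) {u k lam B' c' M' : ℝ} (hk : |k| + 1 ≤ n)
    (hlam : 0 < lam) (hB' : 0 < B') (hc' : 0 < c') (hM' : 0 < M') :
    (∫ t in Set.Ioi (0:ℝ), ((om κ (κ / T) t : ℝ) : ℂ) * (riemannZeta (cl t) *
          (starRingEnd ℂ (AZ n Rs J k (zz I t)) * AZ n Rs J (k - 1) (zz I t) *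
            ((‖DK n Rs J hh u (zz I t)‖ ^ 2 : ℝ) : ℂ)))).re ≤
      (64 * M' * Real.exp (2 * k * u + 2 * |k| * B')) *
        (∫ t in Set.Ioi (0:ℝ) ∩ SS Rs J I u B' c' M', om κ (κ / T) t) +
      (lam + 4 / M') * (∫ t in Set.Ioi (0:ℝ), wz κ T t * AD n Rs J I (k - 1) u t) +
      1 / (2 * lam) * (∑ i ∈ range J, ∫ t in Set.Ioi (0:ℝ), om κ (κ / T) t *
        ((‖zz I t i‖ / RR Rs i) ^ (2 * RR Rs i) * AD n Rs J I k u t)) +
      1 / (2 * lam * B' ^ 2) * (∫ t in Set.Ioi (0:ℝ), om κ (κ / T) t * ((xx I J t - u) ^ 2 * AD n Rs J I k u t)) +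
      16 * c' * (∫ t in Set.Ioi (0:ℝ), om κ (κ / T) t * AD n Rs J I k u t) := by
  classical
  obtain ⟨hP1, hP2⟩ := hPT
  have hhc : Continuous hh := by unfold hh; fun_prop
  obtain ⟨cA, cD, cz, Bk, hBk⟩ := hP1 n Rs J I k u hh hI hhc
  obtain ⟨cA', _, _, Bm, hBm⟩ := hP1 n Rs J I (k - 1) u hh hI hhc
  have cx := xx_cont (J := J) cz
  have cAD : Continuous (AD n Rs J I k u) := by
    unfold AD; exact (cA.norm.pow 2).mul (cD.norm.pow 2)
  have cAD' : Continuous (AD n Rs J I (k - 1) u) := by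
    unfold AD; exact (cA'.norm.pow 2).mul (cD.norm.pow 2)
  have AD0 : ∀ a t, 0 ≤ AD n Rs J I a u t := fun a t => by unfold AD; positivity
  have bAD : ∀ t, AD n Rs J I k u t ≤ Bk ^ 2 * Bk ^ 2 := fun t => by
    unfold AD
    have h1 := (hBk t).1
    have h2 := (hBk t).2.1
    gcongr
  have bAD' : ∀ t, AD n Rs J I (k - 1) u t ≤ Bm ^ 2 * Bm ^ 2 := fun t => by
    unfold AD
    have h1 := (hBm t).1
    have h2 := (hBm t).2.1
    gcongr
  have hz0 : ∀ t, ∀ i < J, ‖zz I t i‖ ≤ |Bk| := fun t i hi => ((hBk t).2.2 i hi).trans (le_abs_self _)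
  have bx : ∀ t, |xx I J t| ≤ J * |Bk| := fun t => by
    unfold xx
    refine (abs_sum_le_sum_abs _ _).trans ?_
    refine (sum_le_sum (g := fun _ => |Bk|) fun i hi =>
      (Complex.abs_re_le_norm _).trans (hz0 t i (mem_range.mp hi))).trans ?_
    simp
  -- integrability
  have iom : IntegrableOn (fun t => om κ (κ / T) t) (Set.Ioi 0) := om_int0 _ hδ
  have iF : ∀ {F : ℝ → ℝ} {C : ℝ}, Continuous F → (∀ t, |F t| ≤ C) →
      IntegrableOn (fun t => om κ (κ / T) t * F t) (Set.Ioi 0) := by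
    intro F C hF hC
    refine iom.mul_bdd (c := C) hF.aestronglyMeasurable (Eventually.of_forall fun t => ?_)
    rw [Real.norm_eq_abs]; exact hC t
  have j1 : IntegrableOn (fun t => wz κ T t * AD n Rs J I (k - 1) u t) (Set.Ioi 0) :=
    wz_int κ hδ cAD' (C := Bm ^ 2 * Bm ^ 2) fun t => by rw [abs_of_nonneg (AD0 _ _)]; exact bAD' t
  have j4 : IntegrableOn (fun t => om κ (κ / T) t * AD n Rs J I k u t) (Set.Ioi 0) :=
    iF cAD (C := Bk ^ 2 * Bk ^ 2) fun t => by rw [abs_of_nonneg (AD0 _ _)]; exact bAD t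
  have j3 : IntegrableOn (fun t => om κ (κ / T) t * ((xx I J t - u) ^ 2 * AD n Rs J I k u t)) (Set.Ioi 0) := by
    refine iF (((cx.sub continuous_const).pow 2).mul cAD) (C := (J * |Bk| + |u|) ^ 2 * (Bk ^ 2 * Bk ^ 2)) fun t => ?_
    rw [abs_of_nonneg (mul_nonneg (sq_nonneg _) (AD0 _ _)), ← sq_abs (xx I J t - u)]
    have h1 : |xx I J t - u| ≤ J * |Bk| + |u| := (abs_sub _ _).trans (by linarith [bx t])
    exact mul_le_mul (pow_le_pow_left₀ (abs_nonneg _) h1 2) (bAD t) (AD0 _ _) (by positivity)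
  have j2 : ∀ i ∈ range J, IntegrableOn (fun t => om κ (κ / T) t *
      ((‖zz I t i‖ / RR Rs i) ^ (2 * RR Rs i) * AD n Rs J I k u t)) (Set.Ioi 0) := by
    intro i hi
    refine iF ((((cz i).norm.div_const _).pow _).mul cAD)
      (C := (|Bk| / RR Rs i) ^ (2 * RR Rs i) * (Bk ^ 2 * Bk ^ 2)) fun t => ?_
    rw [abs_of_nonneg (mul_nonneg (by positivity) (AD0 _ _))]
    have h1 := hz0 t i (mem_range.mp hi)
    exact mul_le_mul (by gcongr) (bAD t) (AD0 _ _) (by positivity)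
  have hSm := SS_meas (Rs := Rs) (J := J) cz u B' c' M'
  set G : ℝ := 64 * M' * Real.exp (2 * k * u + 2 * |k| * B') with hG
  have hG0 : 0 ≤ G := by positivity
  have j0 : IntegrableOn (fun t => (SS Rs J I u B' c' M').indicator (fun t => om κ (κ / T) t) t) (Set.Ioi 0) :=
    iom.indicator hSm
  -- the pointwise bound
  have hpt : ∀ t ∈ Set.Ioi (0:ℝ), ‖((om κ (κ / T) t : ℝ) : ℂ) * (riemannZeta (cl t) *
          (starRingEnd ℂ (AZ n Rs J k (zz I t)) * AZ n Rs J (k - 1) (zz I t) *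
            ((‖DK n Rs J hh u (zz I t)‖ ^ 2 : ℝ) : ℂ)))‖ ≤
      G * (SS Rs J I u B' c' M').indicator (fun t => om κ (κ / T) t) t +
      (lam + 4 / M') * (wz κ T t * AD n Rs J I (k - 1) u t) +
      1 / (2 * lam) * (∑ i ∈ range J, om κ (κ / T) t *
        ((‖zz I t i‖ / RR Rs i) ^ (2 * RR Rs i) * AD n Rs J I k u t)) +
      1 / (2 * lam * B' ^ 2) * (om κ (κ / T) t * ((xx I J t - u) ^ 2 * AD n Rs J I k u t)) +
      16 * c' * (om κ (κ / T) t * AD n Rs J I k u t) := by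
    intro t ht
    have hom : 0 ≤ om κ (κ / T) t := om_nn κ hδ (le_of_lt ht)
    have hgood := fun hg : gd Rs J I t => hP2 n Rs J (zz I t) hn hRs hg
    have habs : |k| ≤ n := by linarith
    have habs' : |k - 1| ≤ n := (abs_sub _ _).trans (by simpa using hk)
    have h1 := pw (X := Xz t) (A := ‖AZ n Rs J k (zz I t)‖) (A' := ‖AZ n Rs J (k - 1) (zz I t)‖)
      (D := ‖DK n Rs J hh u (zz I t)‖ ^ 2) (Xz_nonneg t) (norm_nonneg _) (norm_nonneg _) (by positivity)
      (x := xx I J t) (u := u) (k := k) hlam hB' hc' hM' hG0 (bd_nonneg Rs J I t) (good := gd Rs J I t)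
      (fun h => bd_one hRs h) (fun hg => by
        obtain ⟨ha, _⟩ := hgood hg
        have b1 := ha k habs
        have b2 := ha (k - 1) habs'
        exact ⟨b1.1, b1.2, b2.1, b2.2⟩) (fun hg hx _ hhi => by
        obtain ⟨ha, hd⟩ := hgood hg
        have b1 := (ha k habs).2
        have b2 := (ha (k - 1) habs').2
        have b3 := hd u
        change ‖AZ n Rs J k (zz I t)‖ ≤ 2 * Real.exp (k * xx I J t) at b1
        change ‖AZ n Rs J (k - 1) (zz I t)‖ ≤ 2 * Real.exp ((k - 1) * xx I J t) at b2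
        have b4 : ‖DK n Rs J hh u (zz I t)‖ ^ 2 ≤ 16 := by
          have := pow_le_pow_left₀ (norm_nonneg _) b3 2
          linarith
        calc Xz t * (‖AZ n Rs J k (zz I t)‖ * ‖AZ n Rs J (k - 1) (zz I t)‖) * ‖DK n Rs J hh u (zz I t)‖ ^ 2 ≤
            (M' * Real.exp (xx I J t)) * ((2 * Real.exp (k * xx I J t)) * (2 * Real.exp ((k - 1) * xx I J t))) * 16 := by
              gcongr
          _ = 64 * M' * (Real.exp (xx I J t) * Real.exp (k * xx I J t) * Real.exp ((k - 1) * xx I J t)) := by ring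
          _ = 64 * M' * Real.exp (2 * k * xx I J t) := by
              rw [← Real.exp_add, ← Real.exp_add]; congr 2; ring
          _ ≤ G := by
              rw [hG]
              refine mul_le_mul_of_nonneg_left (Real.exp_le_exp.mpr ?_) (by positivity)
              have h5 : k * (xx I J t - u) ≤ |k| * B' := by
                refine (le_abs_self _).trans ?_
                rw [abs_mul]
                exact mul_le_mul_of_nonneg_left hx (abs_nonneg _)
              linarith)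
    have h2 := mul_le_mul_of_nonneg_left h1 hom
    have e1 : ‖((om κ (κ / T) t : ℝ) : ℂ) * (riemannZeta (cl t) *
          (starRingEnd ℂ (AZ n Rs J k (zz I t)) * AZ n Rs J (k - 1) (zz I t) *
            ((‖DK n Rs J hh u (zz I t)‖ ^ 2 : ℝ) : ℂ)))‖ =
        om κ (κ / T) t * (Xz t * (‖AZ n Rs J k (zz I t)‖ * ‖AZ n Rs J (k - 1) (zz I t)‖) *
          ‖DK n Rs J hh u (zz I t)‖ ^ 2) := by
      rw [norm_mul, norm_mul, norm_mul, norm_mul, RCLike.norm_conj, Complex.norm_real, Complex.norm_real,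
        Real.norm_of_nonneg hom, Real.norm_of_nonneg (by positivity)]
      unfold Xz; ring
    rw [e1]
    refine h2.trans (le_of_eq ?_)
    have e2 : om κ (κ / T) t * (if gd Rs J I t ∧ |xx I J t - u| ≤ B' ∧ c' * Real.exp (xx I J t) ≤ Xz t ∧
        Xz t ≤ M' * Real.exp (xx I J t) then G else 0) =
        G * (SS Rs J I u B' c' M').indicator (fun t => om κ (κ / T) t) t := by
      by_cases hS : gd Rs J I t ∧ |xx I J t - u| ≤ B' ∧ c' * Real.exp (xx I J t) ≤ Xz t ∧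
          Xz t ≤ M' * Real.exp (xx I J t)
      · have hS' : t ∈ SS Rs J I u B' c' M' := hS
        rw [Set.indicator_of_mem hS', if_pos hS]; ring
      · have hS' : t ∉ SS Rs J I u B' c' M' := hS
        rw [Set.indicator_of_notMem hS', if_neg hS]; ring
    have e3 : wz κ T t = om κ (κ / T) t * Xz t ^ 2 := rfl
    have e4 : ∑ i ∈ range J, om κ (κ / T) t * ((‖zz I t i‖ / RR Rs i) ^ (2 * RR Rs i) * AD n Rs J I k u t) =
        om κ (κ / T) t * (bd Rs J I t * AD n Rs J I k u t) := by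
      unfold bd
      rw [sum_mul, mul_sum]
    rw [mul_add, mul_add, mul_add, mul_add, e2, e3, e4]
    unfold AD
    ring
  refine (Complex.re_le_norm _).trans ((norm_integral_le_integral_norm _).trans ?_)
  have i1 := j0.const_mul G
  have i2 := j1.const_mul (lam + 4 / M')
  have i3 := (integrable_finsetSum _ j2).const_mul (1 / (2 * lam))
  have i4 := j3.const_mul (1 / (2 * lam * B' ^ 2))
  have i5 := j4.const_mul (16 * c')
  have hle := integral_mono_of_nonneg (μ := volume.restrict (Set.Ioi (0:ℝ)))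
    (Eventually.of_forall fun t => norm_nonneg _) ((((i1.add i2).add i3).add i4).add i5)
    ((ae_restrict_iff' measurableSet_Ioi).mpr (Eventually.of_forall fun t ht => by
      simpa only [Pi.add_apply] using hpt t ht))
  refine hle.trans (le_of_eq ?_)
  rw [integral_add' (((i1.add i2).add i3).add i4) i5, integral_add' ((i1.add i2).add i3) i4,
    integral_add' (i1.add i2) i3, integral_add' i1 i2, integral_const_mul, integral_const_mul, integral_const_mul,
    integral_const_mul, integral_const_mul, integral_finsetSum _ j2, setIntegral_indicator hSm]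


lemma final_num {c₁ C1 C2 C3 C4 Λ W G X lam B' c' M' E : ℝ} (hc₁ : 0 < c₁) (hC1 : 0 < C1) (hC4 : 0 < C4)
    (hΛ : 0 < Λ) (hW : 0 ≤ W) (hlam : lam = c₁ / (8 * C4 * Λ)) (hM' : M' = 32 * C4 * Λ / c₁)
    (hc' : c' = c₁ / (128 * C1)) (h2 : 1 / (2 * lam * B' ^ 2) * C2 ≤ c₁ / 8) (h3 : 1 / lam * (C3 * E) ≤ c₁ / 8)
    (hkey : c₁ * W ≤ G * X + (lam + 4 / M') * (C4 * (Λ * W)) + 1 / (2 * lam) * (2 * (C3 * E) * W) +
      1 / (2 * lam * B' ^ 2) * (C2 * W) + 16 * c' * (C1 * W)) : c₁ / 4 * W ≤ G * X := by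
  have e1 : (lam + 4 / M') * (C4 * (Λ * W)) = c₁ / 4 * W := by
    rw [hlam, hM']; field_simp; ring
  have e2 : 16 * c' * (C1 * W) = c₁ / 8 * W := by
    rw [hc']; field_simp; ring
  have e3 : 1 / (2 * lam) * (2 * (C3 * E) * W) = (1 / lam * (C3 * E)) * W := by
    have : lam ≠ 0 := by rw [hlam]; positivity
    field_simp
  have e4 : 1 / (2 * lam * B' ^ 2) * (C2 * W) = (1 / (2 * lam * B' ^ 2) * C2) * W := by ring
  rw [e1, e2, e3, e4] at hkey
  have h5 := mul_le_mul_of_nonneg_right h2 hW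
  have h6 := mul_le_mul_of_nonneg_right h3 hW
  nlinarith

lemma lam_T {L CV cc V : ℝ} (hL : 1 ≤ L) (hcc : 0 < cc) (hV : Real.log (cc * L) - CV ≤ V) :
    L ≤ Real.exp CV / cc * Real.exp V := by
  have h0 : 0 < cc * L := by positivity
  have h1 : Real.exp (Real.log (cc * L) - CV) ≤ Real.exp V := Real.exp_le_exp.mpr hV
  rw [Real.exp_sub, Real.exp_log h0] at h1
  have h2 := Real.exp_pos CV
  rw [div_le_iff₀ h2] at h1
  rw [div_mul_eq_mul_div, le_div_iff₀ hcc]
  linarith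

lemma fin_WW {V l DV B k : ℝ} (hl : 1 ≤ l) (hV0 : 0 ≤ V) (hDV : 0 ≤ DV) (hV : V ≤ l + DV) (hk : |k| ≤ B) :
    Real.exp (-(B ^ 2 * DV)) * (2 + DV) ^ (-(1 / 2) : ℝ) * (Real.exp (-(k ^ 2 * l)) / Real.sqrt l) ≤
      (1 + V) ^ (-(1 / 2) : ℝ) * Real.exp (-(k ^ 2 * V)) := by
  have hB : k ^ 2 ≤ B ^ 2 := by
    rw [← sq_abs k]; exact pow_le_pow_left₀ (abs_nonneg _) hk 2
  have h1 : Real.exp (-(B ^ 2 * DV)) * Real.exp (-(k ^ 2 * l)) ≤ Real.exp (-(k ^ 2 * V)) := by
    rw [← Real.exp_add]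
    apply Real.exp_le_exp.mpr
    have h2 : k ^ 2 * V ≤ k ^ 2 * (l + DV) := mul_le_mul_of_nonneg_left hV (sq_nonneg _)
    have h3 : k ^ 2 * DV ≤ B ^ 2 * DV := mul_le_mul_of_nonneg_right hB hDV
    linarith
  have h4 : (2 + DV) ^ (-(1 / 2) : ℝ) * (1 / Real.sqrt l) ≤ (1 + V) ^ (-(1 / 2) : ℝ) := by
    have e1 : 1 / Real.sqrt l = l ^ (-(1 / 2) : ℝ) := by
      rw [Real.sqrt_eq_rpow, Real.rpow_neg (by linarith), one_div]
    rw [e1, ← Real.mul_rpow (by linarith) (by linarith)]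
    refine Real.rpow_le_rpow_of_nonpos (by linarith) ?_ (by norm_num)
    nlinarith
  calc _ = ((2 + DV) ^ (-(1 / 2) : ℝ) * (1 / Real.sqrt l)) *
        (Real.exp (-(B ^ 2 * DV)) * Real.exp (-(k ^ 2 * l))) := by ring
    _ ≤ (1 + V) ^ (-(1 / 2) : ℝ) * Real.exp (-(k ^ 2 * V)) := by
        refine mul_le_mul h4 h1 (by positivity) (by positivity)

theorem t_WIN (hSet : P_SET) (hPT : P_PT) (h1 : P_U1) (h2 : P_U2) (h3 : P_U3) (h4 : P_U4) (hL : P_LB) : P_WIN := by
  intro B hB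
  obtain ⟨c₀, hc₀, hSet⟩ := hSet
  set n : ℕ := ⌈B⌉₊ + 1 with hn
  have hn1 : 1 ≤ n := by omega
  have hn1R : (1:ℝ) ≤ n := by exact_mod_cast hn1
  have hBn : B + 1 ≤ n := by rw [hn]; push_cast; linarith [Nat.le_ceil B]
  obtain ⟨P1, C1, η1, hC1, hη1, H1⟩ := h1 n c₀ hn1 hc₀
  obtain ⟨P2, C2, η2, hC2, hη2, H2⟩ := h2 n c₀ hn1 hc₀
  obtain ⟨P3, C3, η3, hC3, hη3, H3⟩ := h3 n c₀ hn1 hc₀
  obtain ⟨P4, C4, η4, hC4, hη4, H4⟩ := h4 n c₀ hn1 hc₀
  obtain ⟨P5, R5, c₁, e₀, η5, hc₁, he₀, he1, hη5, H5⟩ := hL n c₀ hn1 hc₀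
  obtain ⟨P6, hSet⟩ := hSet e₀ he₀
  set P : ℕ := P1 + P2 + P3 + P4 + P5 + P6 with hP
  obtain ⟨CV, hCV, hSet⟩ := hSet P (by omega)
  obtain ⟨η, hη0, hη1', g1, g2, g3, g4, g5⟩ : ∃ η : ℝ, 0 < η ∧ η ≤ 1 ∧ η ≤ η1 ∧ η ≤ η2 ∧ η ≤ η3 ∧ η ≤ η4 ∧ η ≤ η5 := by
    refine ⟨min 1 (min η1 (min η2 (min η3 (min η4 η5)))), by positivity, min_le_left _ _, ?_, ?_, ?_, ?_, ?_⟩
    · exact (min_le_right _ _).trans (min_le_left _ _)
    · exact (min_le_right _ _).trans ((min_le_right _ _).trans (min_le_left _ _))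
    · exact (min_le_right _ _).trans ((min_le_right _ _).trans ((min_le_right _ _).trans (min_le_left _ _)))
    · exact (min_le_right _ _).trans ((min_le_right _ _).trans ((min_le_right _ _).trans
        ((min_le_right _ _).trans (min_le_left _ _))))
    · exact (min_le_right _ _).trans ((min_le_right _ _).trans ((min_le_right _ _).trans
        ((min_le_right _ _).trans (min_le_right _ _))))
  obtain ⟨Rs, hR5, hR1, hRs⟩ := Rs_ex (64 * C3 * C4 * (Real.exp CV * n / η) / c₁ ^ 2) R5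
  have hRs1 : (1:ℝ) ≤ Rs := by exact_mod_cast hR1
  set cc : ℝ := η / (n * ((Rs:ℝ) + 1)) with hcc
  have hcc0 : 0 < cc := by positivity
  have hcc1 : cc ≤ 1 := by
    rw [hcc, div_le_one (by positivity)]
    nlinarith
  set Λ : ℝ := Real.exp CV / cc with hΛ
  have hΛ0 : 0 < Λ := by positivity
  set lam : ℝ := c₁ / (8 * C4 * Λ) with hlam
  have hlam0 : 0 < lam := by positivity
  set M' : ℝ := 32 * C4 * Λ / c₁ with hM'
  have hM'0 : 0 < M' := by positivity
  set c' : ℝ := c₁ / (128 * C1) with hc'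
  have hc'0 : 0 < c' := by positivity
  set B' : ℝ := 1 + 4 * C2 / (lam * c₁) with hB'
  have hB'1 : 1 ≤ B' := by
    have : 0 < 4 * C2 / (lam * c₁) := by positivity
    linarith
  have hB'0 : 0 < B' := by linarith
  have hcB : 1 / (2 * lam * B' ^ 2) * C2 ≤ c₁ / 8 := by
    have e1 : 4 * C2 / (lam * c₁) ≤ B' ^ 2 := by nlinarith
    rw [div_le_iff₀ (by positivity)] at e1
    rw [one_div, inv_mul_le_iff₀ (by positivity)]
    nlinarith
  have hcE : 1 / lam * (C3 * Real.exp (-(Rs:ℝ))) ≤ c₁ / 8 := by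
    have e1 : 1 / lam * (C3 * Real.exp (-(Rs:ℝ))) =
        (64 * C3 * C4 * (Real.exp CV * n / η) / c₁ ^ 2 * ((Rs:ℝ) + 1) * Real.exp (-(Rs:ℝ))) * (c₁ / 8) := by
      rw [hlam, hΛ, hcc]
      field_simp
      ring
    rw [e1]
    have := mul_le_mul_of_nonneg_right hRs (show 0 ≤ c₁ / 8 by positivity)
    linarith
  set DV : ℝ := c₀ + CV + |Real.log cc| with hDV
  have hDV0 : 0 ≤ DV := by positivity
  set c_out : ℝ := c₁ / 4 / (64 * M' * Real.exp (2 * B * B')) *
    (Real.exp (-(B ^ 2 * DV)) * (2 + DV) ^ (-(1 / 2) : ℝ)) with hcout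
  have h2DV : 0 < (2 + DV) ^ (-(1 / 2) : ℝ) := Real.rpow_pos_of_pos (by linarith) _
  set C_out : ℝ := B' + B * DV + |Real.log c'| + |Real.log M'| with hCout
  refine ⟨c_out, C_out, by positivity, by positivity, ?_⟩
  have hbig : ∀ᶠ T : ℝ in atTop, 144 ≤ Real.exp (cc * Real.log T) := by
    have h5 := Real.tendsto_log_atTop.eventually_ge_atTop (Real.log 144 / cc)
    filter_upwards [h5] with T hT
    rw [div_le_iff₀ hcc0] at hT
    rw [← Real.log_le_iff_le_exp (by norm_num)]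
    linarith
  filter_upwards [H1 Rs hR1, H2 Rs hR1, H3 Rs hR1, H4 Rs hR1, H5 Rs hR5 hR1, hbig, eventually_gt_atTop (0:ℝ),
    Real.tendsto_log_atTop.eventually_ge_atTop 1,
    (Real.tendsto_log_atTop.comp Real.tendsto_log_atTop).eventually_ge_atTop 1] with
    T h1T h2T h3T h4T h5T hy hT0 hL1 hl1 κ hκ k hk
  simp only [Function.comp] at hl1
  set L := Real.log T with hLd
  set l := Real.log L with hld
  have hL0 : 0 < L := by linarith
  obtain ⟨J, I, hcfg, hV⟩ := hSet (Real.exp (cc * L)) hy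
  have hlogy : Real.log (Real.exp (cc * L)) = cc * L := Real.log_exp _
  have hlen : n * ((Rs:ℝ) + 1) * Real.log (Real.exp (cc * L)) = η * L := by
    rw [hlogy, hcc]; field_simp
  set V := VV I J with hVd
  have hV0 : 0 ≤ V := sum_nonneg fun i _ => vI_nonneg _
  have hVup : V ≤ l + c₀ := by
    have h6 := hcfg.vv
    rw [hlogy] at h6
    have h7 : Real.log (cc * L) ≤ l := Real.log_le_log (by positivity) (by nlinarith)
    linarith
  have hVlow : l - DV ≤ V := by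
    rw [hlogy, Real.log_mul hcc0.ne' hL0.ne'] at hV
    have := neg_abs_le (Real.log cc)
    linarith
  have hk1 : |k| + 1 ≤ n := by linarith
  have hkn : |k| ≤ n := by linarith
  have hkn' : |k - 1| ≤ n := (abs_sub _ _).trans (by simpa using hk1)
  have hκ0 : (0:ℝ) < κ := by
    have := hκ.1
    nlinarith
  have hδ : 0 < (κ:ℝ) / T := by positivity
  have hI : ∀ i, ∀ p ∈ I i, p.Prime := fun i p hp => (hcfg.rg.pr i p hp).1
  have hc1 : Cfg c₀ 1 P1 (Real.exp (cc * L)) J I := hcfg.mono he1 (by omega)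
  have hc2 : Cfg c₀ 1 P2 (Real.exp (cc * L)) J I := hcfg.mono he1 (by omega)
  have hc3 : Cfg c₀ 1 P3 (Real.exp (cc * L)) J I := hcfg.mono he1 (by omega)
  have hc4 : Cfg c₀ 1 P4 (Real.exp (cc * L)) J I := hcfg.mono he1 (by omega)
  have hc5 : Cfg c₀ e₀ P5 (Real.exp (cc * L)) J I := hcfg.mono le_rfl (by omega)
  have key := int_key hPT hI hn1 hR1 (κ := κ) (T := T) hδ (u := k * V) (k := k) hk1 hlam0 hB'0 hc'0 hM'0 (J := J)
  have low := h5T κ hκ _ J I hc5 (by rw [hlen]; gcongr) k hk1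
  have u1 := h1T κ hκ _ J I hc1 (by rw [hlen]; gcongr) k (k * V) hkn
  have u2 := h2T κ hκ _ J I hc2 (by rw [hlen]; gcongr) k (k * V) hkn
  have u3 := h3T κ hκ _ J I hc3 (by rw [hlen]; gcongr) k (k * V) hkn
  have u4 := h4T κ hκ _ J I hc4 (by rw [hlen]; gcongr) (k - 1) (k * V) hkn'
  set W := WW (k ^ 2) V with hW
  have hW0 : 0 < W := by unfold W WW; positivity
  have hWW : WW (2 * (k - 1) + (k - 1) ^ 2) V = W * Real.exp (-V) := by
    rw [hW]; unfold WW
    rw [mul_assoc, ← Real.exp_add]; congr 2; ring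
  have hLT : L * Real.exp (-V) ≤ Λ := by
    have h6 := lam_T (V := V) hL1 hcc0 (by rw [hlogy] at hV; exact hV)
    rw [Real.exp_neg]
    rw [mul_inv_le_iff₀ (Real.exp_pos _)]
    exact h6
  have u4' : ∫ t in Set.Ioi (0:ℝ), wz κ T t * AD n Rs J I (k - 1) (k * V) t ≤ C4 * (Λ * W) := by
    refine u4.trans ?_
    rw [hWW]
    calc C4 * L * (W * Real.exp (-V)) = C4 * ((L * Real.exp (-V)) * W) := by ring
      _ ≤ C4 * (Λ * W) := by gcongr
  have u3' : ∑ i ∈ range J, ∫ t in Set.Ioi (0:ℝ), om κ (κ / T) t *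
        ((‖zz I t i‖ / RR Rs i) ^ (2 * RR Rs i) * AD n Rs J I k (k * V) t) ≤
      2 * (C3 * Real.exp (-(Rs:ℝ))) * W := by
    refine (sum_le_sum fun i hi => u3 i (mem_range.mp hi)).trans ?_
    rw [← sum_mul, ← mul_sum]
    have h6 := sum_exp_le J Rs (RR_ge Rs)
    calc C3 * (∑ i ∈ range J, Real.exp (-(RR Rs i : ℝ))) * W ≤ C3 * (2 * Real.exp (-(Rs:ℝ))) * W := by gcongr
      _ = _ := by ring
  have hfin := final_num (c₁ := c₁) (C1 := C1) (C2 := C2) (C3 := C3) (C4 := C4) (Λ := Λ) (W := W)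
    (G := 64 * M' * Real.exp (2 * k * (k * V) + 2 * |k| * B'))
    (X := ∫ t in Set.Ioi (0:ℝ) ∩ SS Rs J I (k * V) B' c' M', om κ (κ / T) t)
    (lam := lam) (B' := B') (c' := c') (M' := M') (E := Real.exp (-(Rs:ℝ))) hc₁ hC1 hC4 hΛ0 hW0.le hlam hM' hc'
    hcB hcE (by
      refine low.trans (key.trans ?_)
      gcongr)
  -- the set
  have hSsub : SS Rs J I (k * V) B' c' M' ⊆ {t | Real.exp (k * l - C_out) ≤ Xz t ∧ Xz t ≤ Real.exp (k * l + C_out)} := by
    intro t ht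
    obtain ⟨_, hx, hlo, hhi⟩ := ht
    have hVl : |V - l| ≤ DV := by
      rw [abs_le]; constructor
      · linarith
      · have := abs_nonneg (Real.log cc)
        linarith
    have hxk : |xx I J t - k * l| ≤ B' + B * DV := by
      have e1 : xx I J t - k * l = (xx I J t - k * V) + k * (V - l) := by ring
      rw [e1]
      refine (abs_add_le _ _).trans (add_le_add hx ?_)
      rw [abs_mul]
      exact mul_le_mul hk hVl (abs_nonneg _) hB
    obtain ⟨q1, q2⟩ := abs_le.mp hxk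
    have r1 := neg_abs_le (Real.log c')
    have r2 := le_abs_self (Real.log M')
    have r3 := abs_nonneg (Real.log c')
    have r4 := abs_nonneg (Real.log M')
    constructor
    · refine le_trans ?_ hlo
      rw [← Real.exp_log hc'0, ← Real.exp_add]
      apply Real.exp_le_exp.mpr
      linarith
    · refine hhi.trans ?_
      rw [← Real.exp_log hM'0, ← Real.exp_add]
      apply Real.exp_le_exp.mpr
      linarith
  have hTm : MeasurableSet {t : ℝ | Real.exp (k * l - C_out) ≤ Xz t ∧ Xz t ≤ Real.exp (k * l + C_out)} :=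
    (measurableSet_le measurable_const Xz_cont.measurable).inter
      (measurableSet_le Xz_cont.measurable measurable_const)
  have hmono : ∫ t in Set.Ioi (0:ℝ) ∩ SS Rs J I (k * V) B' c' M', om κ (κ / T) t ≤
      ∫ t in Set.Ioi (0:ℝ) ∩ {t | Real.exp (k * l - C_out) ≤ Xz t ∧ Xz t ≤ Real.exp (k * l + C_out)},
        om κ (κ / T) t := by
    refine setIntegral_mono_set ((om_int0 κ hδ).mono_set Set.inter_subset_left) ?_ ?_
    · refine (ae_restrict_iff' (measurableSet_Ioi.inter hTm)).mpr (Eventually.of_forall fun t ht => ?_)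
      exact om_nn κ hδ (le_of_lt ht.1)
    · exact (Set.inter_subset_inter_right _ hSsub).eventuallyLE
  refine le_trans ?_ hmono
  -- numbers
  have hww := fin_WW (B := B) hl1 hV0 hDV0 (show V ≤ l + DV by
    have := abs_nonneg (Real.log cc)
    linarith) hk
  have hGpos : 0 < 64 * M' * Real.exp (2 * k * (k * V) + 2 * |k| * B') := by positivity
  have hXlow : c₁ / 4 * W / (64 * M' * Real.exp (2 * k * (k * V) + 2 * |k| * B')) ≤
      ∫ t in Set.Ioi (0:ℝ) ∩ SS Rs J I (k * V) B' c' M', om κ (κ / T) t := by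
    rw [div_le_iff₀ hGpos]; linarith
  refine le_trans ?_ hXlow
  have e5 : c₁ / 4 * W / (64 * M' * Real.exp (2 * k * (k * V) + 2 * |k| * B')) =
      c₁ / 4 / (64 * M' * Real.exp (2 * |k| * B')) * ((1 + V) ^ (-(1 / 2) : ℝ) * Real.exp (-(k ^ 2 * V))) := by
    rw [hW]; unfold WW
    have e6 : Real.exp (2 * k * (k * V) + 2 * |k| * B') =
        Real.exp (k ^ 2 * V) * Real.exp (k ^ 2 * V) * Real.exp (2 * |k| * B') := by
      rw [← Real.exp_add, ← Real.exp_add]; congr 1; ring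
    rw [e6, Real.exp_neg]
    field_simp
  rw [e5]
  have e7 : c₁ / 4 / (64 * M' * Real.exp (2 * B * B')) ≤ c₁ / 4 / (64 * M' * Real.exp (2 * |k| * B')) := by
    gcongr
  calc c_out * (Real.exp (-(k ^ 2 * l)) / Real.sqrt l) =
      c₁ / 4 / (64 * M' * Real.exp (2 * B * B')) *
        (Real.exp (-(B ^ 2 * DV)) * (2 + DV) ^ (-(1 / 2) : ℝ) * (Real.exp (-(k ^ 2 * l)) / Real.sqrt l)) := by
        rw [hcout]; ring
    _ ≤ c₁ / 4 / (64 * M' * Real.exp (2 * |k| * B')) * ((1 + V) ^ (-(1 / 2) : ℝ) * Real.exp (-(k ^ 2 * V))) := by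
        refine mul_le_mul e7 hww (by positivity) (by positivity)

end

end Pool.Agent.TH806.LK
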