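import Pool.Agent.TH806.LK.Main
import Pool.Agent.TH806.LK.Win
import Pool.Agent.TH806.LK.Dens
import Pool.Agent.TH811.LK_LOC
import Pool.Agent.TH626.LK_AV0
import Pool.Agent.TH959.LK_ZM
import Pool.Agent.TH959.LK_SH
import Pool.Agent.TH838.LK.AV2
import Pool.Agent.TH989.LK_UPG
import Pool.Agent.TH328.LK_PRD
import Pool.Agent.TH328.LK_ALG
import Pool.Agent.TH112.LK_U13
import Pool.Agent.TH112.LK_U2
import Pool.Agent.TH126.LK_PT
import Pool.Agent.TH364.LK_LAW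
import Pool.Agent.TH263.LK_AV1
import Pool.Agent.TH828.LK_SET
import Pool.Agent.TH986.LK_U4
import Pool.Agent.TH986.LK_LB

set_option autoImplicit false

/-! Assembly of the LK project (sharp local lower bounds on the critical line). -/

namespace Pool.Agent.TH806.LK

theorem a_WF : P_WF := Pool.Agent.TH328.LK_ALG.t_WF
theorem a_ALG : P_ALG := Pool.Agent.TH328.LK_ALG.t_ALG
theorem a_LAW : P_LAW := Pool.Agent.TH364.LK_LAW.t_LAW a_WF
theorem a_PRD : P_PRD := Pool.Agent.TH328.LK_PRD.t_PRD Pool.Agent.TH811.LK_LOC.t_LOC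
theorem a_UPG : P_UPG := Pool.Agent.TH989.LK_UPG.t_UPG Pool.Agent.TH626.LK_AV0.t_AV0
theorem a_AV1 : P_AV1 := Pool.Agent.TH263.LK_AV1.t_AV1 Pool.Agent.TH959.LK_ZM.t_ZM a_WF
theorem a_U13 : P_U1 ∧ P_U3 := Pool.Agent.TH112.LK_U13.t_U13 a_ALG a_LAW a_PRD a_UPG
theorem a_U2 : P_U2 := Pool.Agent.TH112.LK_U2.t_U2 a_ALG a_LAW a_PRD a_UPG
theorem a_U4 : P_U4 := Pool.Agent.TH986.LK_U4.t_U4 a_ALG a_LAW a_PRD Pool.Agent.TH838.LK.t_AV2
theorem a_LB : P_LB := Pool.Agent.TH986.LK_LB.t_LB a_ALG a_LAW a_PRD a_AV1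

theorem a_WIN : P_WIN :=
  t_WIN Pool.Agent.TH828.LK_SET.t_SET Pool.Agent.TH126.LK_PT.t_PT a_U13.1 a_U2 a_U13.2 a_U4 a_LB

theorem a_MAIN : P_MAIN := t_MAIN a_WIN Pool.Agent.TH959.LK_SH.t_SH

end Pool.Agent.TH806.LK
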