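import Pool.Agent.TH806.LK.Defs

set_option autoImplicit false

/-!
LK project: from the windows to the final theorem.
-/

namespace Pool.Agent.TH806.LK

open Finset Filter Topology MeasureTheory Complex MonoidAlgebra
open Pool.Agent.W184.NZ
open Pool.Agent.TH806
open Pool.Agent.H306R2.SM (om cl Yf)
open Pool.Agent.H262R4.TM (Rng Ck)

noncomputable section

/-- the cut-off -/
def bmp (a' a b b' r : ℝ) : ℝ := max 0 (min 1 (min ((r - a') / (a - a')) ((b' - r) / (b' - b))))

lemma bmp_cont (a' a b b' : ℝ) : Continuous (bmp a' a b b') := by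
  unfold bmp; fun_prop

lemma bmp_nonneg (a' a b b' r : ℝ) : 0 ≤ bmp a' a b b' r := le_max_left _ _

lemma bmp_le_one (a' a b b' r : ℝ) : bmp a' a b b' r ≤ 1 := max_le zero_le_one (min_le_left _ _)

lemma bmp_one {a' a b b' r : ℝ} (h1 : a' < a) (h2 : b < b') (h3 : a ≤ r) (h4 : r ≤ b) : bmp a' a b b' r = 1 := by
  unfold bmp
  have e1 : 1 ≤ (r - a') / (a - a') := by
    rw [le_div_iff₀ (by linarith)]; linarith
  have e2 : 1 ≤ (b' - r) / (b' - b) := by
    rw [le_div_iff₀ (by linarith)]; linarith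
  rw [min_eq_left (le_min e1 e2), max_eq_right zero_le_one]

lemma bmp_zero {a' a b b' r : ℝ} (h1 : a' < a) (h2 : b < b') (h3 : ¬ (a' ≤ r ∧ r ≤ b')) : bmp a' a b b' r = 0 := by
  unfold bmp
  refine max_eq_left ?_
  rw [not_and_or] at h3
  rcases h3 with h | h
  · push Not at h
    refine (min_le_right _ _).trans ((min_le_left _ _).trans ?_)
    exact div_nonpos_of_nonpos_of_nonneg (by linarith) (by linarith)
  · push Not at h
    refine (min_le_right _ _).trans ((min_le_right _ _).trans ?_)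
    exact div_nonpos_of_nonpos_of_nonneg (by linarith) (by linarith)

theorem t_MAIN (hW : P_WIN) (hS : P_SH) : P_MAIN := by
  intro B hB
  obtain ⟨c, C, hc, hC, hW⟩ := hW B hB
  refine ⟨c / 4, C + 1, by positivity, by positivity, fun α hα0 hα1 => ?_⟩
  obtain ⟨κ, hS⟩ := hS α (B ^ 2 + 1) hα0 hα1 (by positivity)
  obtain ⟨T0, hT0⟩ := eventually_atTop.1 hW
  have hsm : ∀ᶠ T : ℝ in atTop, 2 / c * Real.sqrt (Real.log (Real.log T)) ≤ Real.log T := by
    have h1 := (Real.isLittleO_log_id_atTop.comp_tendsto Real.tendsto_log_atTop).def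
      (show (0:ℝ) < min 1 (c / 2) by positivity)
    filter_upwards [h1, Real.tendsto_log_atTop.eventually_ge_atTop 3,
      (Real.tendsto_log_atTop.comp Real.tendsto_log_atTop).eventually_ge_atTop 1] with T h1 h2 h3
    simp only [Function.comp, id, Real.norm_eq_abs] at h1 h3
    rw [abs_of_nonneg (by linarith), abs_of_nonneg (by linarith)] at h1
    have h4 : Real.sqrt (Real.log (Real.log T)) ≤ Real.log (Real.log T) := by
      rw [Real.sqrt_le_left (by linarith)]
      nlinarith
    have h5 : min 1 (c / 2) ≤ c / 2 := min_le_right _ _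
    have h6 : Real.log (Real.log T) ≤ c / 2 * Real.log T :=
      h1.trans (mul_le_mul_of_nonneg_right h5 (by linarith))
    calc 2 / c * Real.sqrt (Real.log (Real.log T)) ≤ 2 / c * (c / 2 * Real.log T) := by
          gcongr; exact h4.trans h6
      _ = Real.log T := by field_simp
  filter_upwards [hS, hsm, eventually_ge_atTop T0, eventually_ge_atTop (1:ℝ),
    Real.tendsto_log_atTop.eventually_ge_atTop 3,
    (Real.tendsto_log_atTop.comp Real.tendsto_log_atTop).eventually_ge_atTop 1] with
    T hS hsm hT0' hT1 hL hLL H hH1 hH2 V hV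
  simp only [Function.comp] at hLL
  obtain ⟨hR, hS⟩ := hS
  have hT : 0 < T := by linarith
  set L := Real.log T with hLdef
  set l := Real.log L with hldef
  have hL0 : 0 < L := by linarith
  have hl0 : 0 < l := by linarith
  have hH0 : 0 < H := lt_of_lt_of_le (by positivity) hH1
  set f : ℝ → ℝ := fun t => bmp (Real.exp (V - (C + 1))) (Real.exp (V - C)) (Real.exp (V + C))
    (Real.exp (V + (C + 1))) (Xz t) with hf
  have ha1 : Real.exp (V - (C + 1)) < Real.exp (V - C) := Real.exp_lt_exp.mpr (by linarith)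
  have hb1 : Real.exp (V + C) < Real.exp (V + (C + 1)) := Real.exp_lt_exp.mpr (by linarith)
  have hfc : Continuous f := (bmp_cont _ _ _ _).comp Xz_cont
  set w : ℝ := c / 2 * (Real.exp (-(V ^ 2 / l)) / Real.sqrt l) with hw
  have hsl : 0 < Real.sqrt l := Real.sqrt_pos.mpr hl0
  have hw0 : 0 < w := by positivity
  have hV2 : V ^ 2 / l ≤ B ^ 2 * l := by
    rw [div_le_iff₀ hl0]
    have h1 : V ^ 2 ≤ (B * l) ^ 2 := by
      rw [← sq_abs V]; exact pow_le_pow_left₀ (abs_nonneg _) hV 2
    nlinarith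
  have hwlow : 1 / L ^ (B ^ 2 + 1) ≤ w := by
    have e1 : L ^ (B ^ 2 + 1) = Real.exp (B ^ 2 * l) * L := by
      rw [Real.rpow_add hL0, Real.rpow_one, Real.rpow_def_of_pos hL0]
      congr 2; ring
    rw [e1, hw, div_le_iff₀ (by positivity)]
    have h2 : Real.exp (-(B ^ 2 * l)) ≤ Real.exp (-(V ^ 2 / l)) := Real.exp_le_exp.mpr (by linarith)
    have h3 : 2 / c * Real.sqrt l ≤ L := hsm
    calc (1:ℝ) = c / 2 * (Real.exp (-(B ^ 2 * l)) / Real.sqrt l) * (Real.exp (B ^ 2 * l) * (2 / c * Real.sqrt l)) := by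
          rw [Real.exp_neg]; field_simp
      _ ≤ c / 2 * (Real.exp (-(V ^ 2 / l)) / Real.sqrt l) * (Real.exp (B ^ 2 * l) * L) := by gcongr
  have hwin : ∀ x ∈ Set.Icc T (T + H), w ≤ ∫ t in Set.Ioi (0:ℝ), om (κ T) ((κ T : ℝ) / x) t * f t := by
    intro x hx
    have hx0 : 0 < x := lt_of_lt_of_le hT hx.1
    have hx2 : x ≤ 2 * T := hx.2.trans (by linarith)
    have hlx : L ≤ Real.log x := Real.log_le_log hT hx.1
    have hlx2 : Real.log x ≤ 2 * L := by
      have h1 : Real.log x ≤ Real.log (2 * T) := Real.log_le_log hx0 hx2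
      rw [Real.log_mul (by norm_num) hT.ne'] at h1
      have := Real.log_two_lt_d9
      linarith
    have hllx : l ≤ Real.log (Real.log x) := Real.log_le_log hL0 hlx
    have hllx2 : Real.log (Real.log x) ≤ 2 * l := by
      have h1 : Real.log (Real.log x) ≤ Real.log (2 * L) := Real.log_le_log (by linarith) hlx2
      rw [Real.log_mul (by norm_num) hL0.ne'] at h1
      have := Real.log_two_lt_d9
      linarith
    set lx := Real.log (Real.log x) with hlxdef
    have hlx0 : 0 < lx := by linarith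
    have hk : |V / lx| ≤ B := by
      rw [abs_div, abs_of_pos hlx0, div_le_iff₀ hlx0]
      exact hV.trans (mul_le_mul_of_nonneg_left hllx hB)
    have h1 := hT0 x (hT0'.trans hx.1) (κ T) (hR x ⟨hx.1, hx2⟩) (V / lx) hk
    rw [← hlxdef] at h1
    rw [show V / lx * lx = V by field_simp] at h1
    rw [show (V / lx) ^ 2 * lx = V ^ 2 / lx by field_simp] at h1
    have hk0 : (0:ℝ) < κ T := by
      have h2 := (hR x ⟨hx.1, hx2⟩).1
      have h3 : 0 < Real.log x ^ 2 := by
        have : 0 < Real.log x := by linarith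
        positivity
      linarith
    have hδ : 0 < (κ T : ℝ) / x := by positivity
    have h2 : w ≤ c * (Real.exp (-(V ^ 2 / lx)) / Real.sqrt lx) := by
      rw [hw]
      have e1 : Real.exp (-(V ^ 2 / l)) ≤ Real.exp (-(V ^ 2 / lx)) := by
        apply Real.exp_le_exp.mpr
        have : V ^ 2 / lx ≤ V ^ 2 / l := div_le_div_of_nonneg_left (sq_nonneg _) hl0 hllx
        linarith
      have e2 : Real.sqrt lx ≤ 2 * Real.sqrt l := by
        rw [Real.sqrt_le_left (by positivity), mul_pow, Real.sq_sqrt hl0.le]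
        linarith
      have hslx : 0 < Real.sqrt lx := Real.sqrt_pos.mpr hlx0
      have e3 : Real.exp (-(V ^ 2 / l)) / Real.sqrt l ≤ 2 * (Real.exp (-(V ^ 2 / lx)) / Real.sqrt lx) := by
        rw [div_le_iff₀ hsl]
        calc Real.exp (-(V ^ 2 / l)) ≤ Real.exp (-(V ^ 2 / lx)) := e1
          _ = (Real.exp (-(V ^ 2 / lx)) / Real.sqrt lx) * Real.sqrt lx := by field_simp
          _ ≤ (Real.exp (-(V ^ 2 / lx)) / Real.sqrt lx) * (2 * Real.sqrt l) := by gcongr
          _ = _ := by ring
      calc _ ≤ c / 2 * (2 * (Real.exp (-(V ^ 2 / lx)) / Real.sqrt lx)) := by gcongr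
        _ = _ := by ring
    refine h2.trans (h1.trans ?_)
    have hom0 : ∀ t ∈ Set.Ioi (0:ℝ), 0 ≤ om (κ T) ((κ T : ℝ) / x) t := by
      intro t ht
      have : (0:ℝ) < t := ht
      unfold om; positivity
    have hi1 : IntegrableOn (fun t => om (κ T) ((κ T : ℝ) / x) t) (Set.Ioi 0) := om_int0 _ hδ
    have hi2 : IntegrableOn (fun t => om (κ T) ((κ T : ℝ) / x) t * f t) (Set.Ioi 0) := by
      refine hi1.mul_bdd (c := 1) hfc.aestronglyMeasurable (Eventually.of_forall fun t => ?_)
      rw [Real.norm_eq_abs, abs_of_nonneg (bmp_nonneg _ _ _ _ _)]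
      exact bmp_le_one _ _ _ _ _
    have hms : MeasurableSet {t : ℝ | Real.exp (V - C) ≤ Xz t ∧ Xz t ≤ Real.exp (V + C)} :=
      (measurableSet_le measurable_const Xz_cont.measurable).inter
        (measurableSet_le Xz_cont.measurable measurable_const)
    rw [← MeasureTheory.setIntegral_indicator hms]
    refine setIntegral_mono_on (hi1.indicator hms) hi2 measurableSet_Ioi fun t ht => ?_
    by_cases hts : t ∈ {t : ℝ | Real.exp (V - C) ≤ Xz t ∧ Xz t ≤ Real.exp (V + C)}
    · rw [Set.indicator_of_mem hts]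
      have : f t = 1 := bmp_one ha1 hb1 hts.1 hts.2
      rw [this, mul_one]
    · rw [Set.indicator_of_notMem hts]
      exact mul_nonneg (hom0 t ht) (bmp_nonneg _ _ _ _ _)
  have h1 := hS H hH1 hH2 f hfc (fun t => ⟨bmp_nonneg _ _ _ _ _, bmp_le_one _ _ _ _ _⟩) w hwlow hwin
  set S : Set ℝ := {t ∈ Set.Icc T (T + H) | Real.exp (V - (C + 1)) ≤ ‖riemannZeta (1 / 2 + t * Complex.I)‖ ∧
        ‖riemannZeta (1 / 2 + t * Complex.I)‖ ≤ Real.exp (V + (C + 1))} with hSdef
  have hSm : MeasurableSet S := by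
    have e1 : S = Set.Icc T (T + H) ∩ {t : ℝ | Real.exp (V - (C + 1)) ≤ Xz t ∧ Xz t ≤ Real.exp (V + (C + 1))} := rfl
    rw [e1]
    exact measurableSet_Icc.inter ((measurableSet_le measurable_const Xz_cont.measurable).inter
        (measurableSet_le Xz_cont.measurable measurable_const))
  have h2 : ∫ t in T..(T + H), f t ≤ volume.real S := by
    rw [intervalIntegral.integral_of_le (by linarith)]
    have e1 : volume.real S = ∫ t in Set.Icc T (T + H), S.indicator (fun _ => (1:ℝ)) t := by
      rw [MeasureTheory.setIntegral_indicator hSm, setIntegral_const, smul_eq_mul, mul_one]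
      congr 2
      exact (Set.inter_eq_self_of_subset_right fun t ht => ht.1).symm
    rw [e1, ← integral_Icc_eq_integral_Ioc]
    refine setIntegral_mono_on (hfc.integrableOn_Icc) ?_ measurableSet_Icc fun t ht => ?_
    · exact (integrableOn_const (by simp) (by simp)).indicator hSm
    · by_cases hts : t ∈ S
      · rw [Set.indicator_of_mem hts]; exact bmp_le_one _ _ _ _ _
      · rw [Set.indicator_of_notMem hts]
        refine (bmp_zero ha1 hb1 fun h => hts ⟨ht, ?_⟩).le
        exact h
  refine le_trans (le_of_eq ?_) (h1.trans h2)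
  rw [hw]; ring

end

end Pool.Agent.TH806.LK
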